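import Pool.Agent.Lib.MP_4b3fad_al.Tower

/-!
Identities of ordinary alternative rings.
-/

namespace MP4b3fad

universe u

/-- Alternative rings. -/
structure IsAlt (A : Type u) [NonUnitalNonAssocRing A] : Prop where
  left : ∀ x y : A, asr x x y = 0
  right : ∀ x y : A, asr y x x = 0

/-- the commutator -/
def lie {A : Type u} [NonUnitalNonAssocRing A] (x y : A) : A := x * y - y * x
/-- the Jordan product -/
def jor {A : Type u} [NonUnitalNonAssocRing A] (x y : A) : A := x * y + y * x

section
variable {A : Type u} [NonUnitalNonAssocRing A]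

theorem asr_add_left (a a' b c : A) : asr (a + a') b c = asr a b c + asr a' b c := by
  simp only [asr, add_mul]; abel
theorem asr_add_mid (a b b' c : A) : asr a (b + b') c = asr a b c + asr a b' c := by
  simp only [asr, add_mul, mul_add]; abel
theorem asr_add_right (a b c c' : A) : asr a b (c + c') = asr a b c + asr a b c' := by
  simp only [asr, mul_add]; abel
theorem asr_sub_left (a a' b c : A) : asr (a - a') b c = asr a b c - asr a' b c := by
  simp only [asr, sub_mul]; abel
theorem asr_sub_mid (a b b' c : A) : asr a (b - b') c = asr a b c - asr a b' c := by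
  simp only [asr, sub_mul, mul_sub]; abel
theorem asr_sub_right (a b c c' : A) : asr a b (c - c') = asr a b c - asr a b c' := by
  simp only [asr, mul_sub]; abel

theorem teich (a b c d : A) :
    asr (a * b) c d - asr a (b * c) d + asr a b (c * d) = a * asr b c d + asr a b c * d := by
  simp only [asr, mul_sub, sub_mul]; abel

/-- The Kleinfeld function. -/
def kf (a b c d : A) : A := asr (a * b) c d - b * asr a c d - asr b c d * a

variable (h : IsAlt A)
include h

theorem IsAlt.s12 (x y z : A) : asr x y z = - asr y x z := by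
  have e := h.left (x + y) z
  rw [asr_add_left, asr_add_mid, asr_add_mid, h.left, h.left] at e
  rw [eq_neg_iff_add_eq_zero]
  simpa using e

theorem IsAlt.s23 (x y z : A) : asr x y z = - asr x z y := by
  have e := h.right (y + z) x
  rw [asr_add_mid, asr_add_right, asr_add_right, h.right, h.right] at e
  rw [eq_neg_iff_add_eq_zero]
  simpa using e

theorem IsAlt.cyc (x y z : A) : asr x y z = asr y z x := by
  rw [h.s12, h.s23, neg_neg]

theorem IsAlt.s13 (x y z : A) : asr x y z = - asr z y x := by
  rw [h.cyc, h.s12]

theorem IsAlt.flex (x y : A) : asr x y x = 0 := by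
  rw [h.s12, h.right, neg_zero]

theorem IsAlt.kf34 (a b c d : A) : kf a b c d = - kf a b d c := by
  unfold kf
  rw [h.s23 (a * b) c d, h.s23 a c d, h.s23 b c d, mul_neg, neg_mul]
  abel

theorem IsAlt.kfcyc (a b c d : A) : kf a b c d = - kf d a b c := by
  have t1 := teich a b c d
  have t2 := teich b c d a
  unfold kf
  have e1 : asr a (b * c) d = - asr (b * c) a d := h.s12 _ _ _
  have e1' : asr (b * c) a d = - asr (b * c) d a := h.s23 _ _ _
  have e2 : asr a b (c * d) = asr (c * d) a b := by rw [h.cyc, h.cyc]
  have e3 : asr b (c * d) a = - asr (c * d) b a := h.s12 _ _ _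
  have e3' : asr (c * d) b a = - asr (c * d) a b := h.s23 _ _ _
  have e4 : asr b c (d * a) = asr (d * a) b c := by rw [h.cyc, h.cyc]
  have e5 : asr a c d = asr c d a := h.cyc _ _ _
  have e6 : asr d b c = asr b c d := h.cyc _ _ _
  rw [e1, e1', e2] at t1
  rw [e3, e3', e4] at t2
  rw [e5, e6]
  linear_combination (norm := module) t1 + t2

theorem IsAlt.kf12 (a b c d : A) : kf a b c d = - kf b a c d := by
  -- (a b c d) -> cyc -> (d a b c)
  rw [h.kfcyc a b c d, h.kfcyc d a b c, h.kf34 c d a b, h.kfcyc c d b a, h.kfcyc a c d b]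
  simp

theorem IsAlt.kf23 (a b c d : A) : kf a b c d = - kf a c b d := by
  rw [h.kfcyc a b c d, h.kf34 d a b c, h.kfcyc a c b d]

/-- `D = (·, z, w)` is a derivation of the Jordan product. -/
theorem IsAlt.jder (a b z w : A) :
    asr (jor a b) z w = jor a (asr b z w) + jor (asr a z w) b := by
  have e := h.kf12 a b z w
  unfold kf at e
  unfold jor
  rw [asr_add_left]
  linear_combination (norm := module) e

theorem IsAlt.jac (a b c : A) :
    lie (lie a b) c + lie (lie b c) a + lie (lie c a) b = (6 : ℤ) • asr a b c := by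
  have e1 := h.cyc a b c
  have e2 := h.cyc b c a
  have e3 := h.s12 a b c
  have e4 := h.s12 b c a
  have e5 := h.s12 c a b
  have e : lie (lie a b) c + lie (lie b c) a + lie (lie c a) b
      = asr a b c + asr b c a + asr c a b - asr b a c - asr c b a - asr a c b := by
    simp only [lie, asr, mul_sub, sub_mul]; abel
  rw [e]
  linear_combination (norm := module) - e3 - e4 - e5 - 4 • e1 - 2 • e2

theorem IsAlt.kf13 (a b c d : A) : kf a b c d = - kf c b a d := by
  rw [h.kf12 a b c d, h.kf23 b a c d, h.kf12 b c a d]
  simp

/-- Linearised Malcev identity. -/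
theorem IsAlt.mal (x y z t : A) :
    asr x y (lie t z) + asr t y (lie x z) = lie (asr x y z) t + lie (asr t y z) x := by
  have e1 : asr x y (lie t z) = asr (lie t z) x y := by rw [h.cyc, h.cyc]
  have e2 : asr t y (lie x z) = asr (lie x z) t y := by rw [h.cyc, h.cyc]
  have f1 := h.kf12 t z x y
  have f2 := h.kf12 x z t y
  have f3 := h.kf13 t z x y
  rw [e1, e2]
  unfold lie
  rw [asr_sub_left, asr_sub_left]
  unfold kf at f1 f2 f3
  have g1 : asr z x y = asr x y z := h.cyc _ _ _
  have g2 : asr z t y = asr t y z := h.cyc _ _ _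
  have g3 : asr x t y = - asr t x y := h.s12 _ _ _
  rw [g1] at f1 f3
  rw [g2, g3, mul_neg, neg_mul] at f2
  rw [g2, g3, mul_neg] at f3
  linear_combination (norm := module) 2 • f3 - f1 - f2

/-- Sagle's identity (doubled) for the commutator of an alternative ring. -/
theorem IsAlt.sagle (a b c d : A) :
    (2 : ℤ) • (lie (lie (lie a b) c) d + lie (lie (lie b c) d) a + lie (lie (lie c d) a) b
      + lie (lie (lie d a) b) c - lie (lie a c) (lie b d)) = 0 := by
  have key : ∀ x y z t : A,
      (lie (lie x y) (lie t z) + lie (lie y (lie t z)) x + lie (lie (lie t z) x) y)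
      + (lie (lie t y) (lie x z) + lie (lie y (lie x z)) t + lie (lie (lie x z) t) y)
      = lie (lie (lie x y) z + lie (lie y z) x + lie (lie z x) y) t
        + lie (lie (lie t y) z + lie (lie y z) t + lie (lie z t) y) x := by
    intro x y z t
    rw [h.jac, h.jac, h.jac, h.jac]
    have e := h.mal x y z t
    have l : ∀ u v : A, lie ((6 : ℤ) • u) v = (6 : ℤ) • lie u v := by
      intro u v; simp only [lie, smul_mul_assoc, mul_smul_comm, smul_sub]
    rw [l, l, ← smul_add, ← smul_add, e]
  have k1 := key a b c d
  have k2 := key a c d b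
  have k3 := key a d b c
  have skew : ∀ u v : A, lie u v = - lie v u := by intro u v; simp [lie]
  have addl : ∀ u v w : A, lie (u + v) w = lie u w + lie v w := by
    intro u v w; simp only [lie, add_mul, mul_add]; abel
  have negl : ∀ u w : A, lie (-u) w = - lie u w := by
    intro u w; simp only [lie, neg_mul, mul_neg]; abel
  have negr : ∀ u w : A, lie w (-u) = - lie w u := by
    intro u w; simp only [lie, neg_mul, mul_neg]; abel
  simp only [addl] at k1 k2 k3
  -- normal forms
  have n1 : lie b a = - lie a b := skew _ _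
  have n2 : lie c a = - lie a c := skew _ _
  have n3 : lie d a = - lie a d := skew _ _
  have n4 : lie c b = - lie b c := skew _ _
  have n5 : lie d b = - lie b d := skew _ _
  have n6 : lie d c = - lie c d := skew _ _
  simp only [n1, n2, n3, n4, n5, n6, negl, negr, skew b (lie _ _),
    skew c (lie _ _), skew d (lie _ _), skew (lie b c) (lie a d), skew (lie b d) (lie a c),
    skew (lie c d) (lie a b), neg_neg] at k1 k2 k3 ⊢
  linear_combination (norm := module) - k1 - k2 + k3

theorem IsAlt.kfz34 (a b c : A) : kf a b c c = 0 := by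
  unfold kf; rw [h.right, h.right, h.right]; simp

theorem IsAlt.kfz14 (a b c : A) : kf c a b c = 0 := by
  rw [h.kfcyc, h.kfcyc, h.kfcyc, h.kfz34]; simp

theorem IsAlt.kfz24 (a b c : A) : kf a c b c = 0 := by
  rw [h.kf23, h.kfz34]; simp

theorem IsAlt.kfz23 (a b c : A) : kf a b b c = 0 := by
  rw [h.kfcyc, h.kfz34]; simp

theorem IsAlt.kfz13 (a b c : A) : kf b a b c = 0 := by
  rw [h.kfcyc, h.kfz24]; simp

/-- `[x, y] ∘ (x, y, z) = 0`. -/
theorem IsAlt.orth (x y z : A) : jor (lie x y) (asr x y z) = 0 := by
  obtain ⟨u, hu⟩ : ∃ u, asr x y z = u := ⟨_, rfl⟩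
  obtain ⟨v, hv⟩ : ∃ v, asr u x y = v := ⟨_, rfl⟩
  have u1 : asr y z x = u := by rw [← hu, h.cyc x y z]
  -- values of associators
  have a1 : asr (x * y) z x = u * x := by
    have e := h.kfz14 y z x
    unfold kf at e
    rw [h.flex, u1] at e
    linear_combination (norm := skip) e
    simp
  have a2 : asr (y * x) z x = x * u := by
    have e := h.kfz24 y z x
    unfold kf at e
    rw [h.flex, u1] at e
    linear_combination (norm := skip) e
    simp
  have a3 : asr x (x * y) z = u * x := by rw [h.cyc, a1]
  have a4 : asr y (x * y) z = - (y * u) := by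
    have e := h.kfz23 x y z
    unfold kf at e
    rw [h.left, hu] at e
    rw [h.s12]
    simp only [zero_mul, sub_zero] at e
    linear_combination (norm := module) - e
  have a5 : kf x y (x * y) z = v := by
    unfold kf
    rw [h.left, a3, a4, ← hv, h.cyc u x y, h.cyc x y u]
    simp only [asr, neg_mul]; abel
  have a6 : asr x (y * x) z = x * u := by rw [h.cyc, a2]
  have a6' : asr y (y * x) z = - (u * y) := by
    have e := h.kfz13 x y z
    unfold kf at e
    rw [h.left, hu] at e
    rw [h.s12]
    simp only [mul_zero, sub_zero] at e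
    linear_combination (norm := module) - e
  have a7 : kf y x (y * x) z = v := by
    unfold kf
    rw [h.left, a6, a6', ← hv, h.s12 u x y]
    simp only [asr, mul_neg]; abel
  have a8 : kf y (x * y) z x = - v := by rw [h.kfcyc, a5]
  have a9 : kf (y * x) y z x = - v := by
    rw [h.kfcyc, h.kf23, h.kf12, a7]; simp
  have a10 : asr (y * (x * y)) z x = - v + (x * y) * u + (u * x) * y := by
    have e := a8
    unfold kf at e
    rw [u1, a1] at e
    linear_combination (norm := module) e
  have a11 : asr ((y * x) * y) z x = - v + y * (x * u) + u * (y * x) := by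
    have e := a9
    unfold kf at e
    rw [u1, a2] at e
    linear_combination (norm := module) e
  have fl : (y * x) * y = y * (x * y) := by
    have e := h.flex y x
    unfold asr at e
    exact sub_eq_zero.mp e
  rw [fl] at a11
  have b1 : (u * x) * y = u * (x * y) + v := by rw [← hv]; simp only [asr]; abel
  have b2 : y * (x * u) = (y * x) * u + v := by
    have e : asr y x u = - v := by rw [← hv, h.s13]
    unfold asr at e
    linear_combination (norm := module) - e
  rw [hu]
  unfold jor lie
  rw [b1] at a10
  rw [b2] at a11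
  rw [a10] at a11
  simp only [sub_mul, mul_sub]
  linear_combination (norm := module) a11

/-- The linearisation of `[x, y] ∘ (x, y, z) = 0`. -/
theorem IsAlt.orthLin (a a' b b' c : A) :
    jor (lie a b) (asr a' b' c) + jor (lie a' b) (asr a b' c)
      + jor (lie a b') (asr a' b c) + jor (lie a' b') (asr a b c) = 0 := by
  have e := h.orth (a + a') (b + b') c
  have e1 := h.orth (a + a') b c
  have e2 := h.orth (a + a') b' c
  have e3 := h.orth a (b + b') c
  have e4 := h.orth a' (b + b') c
  have e5 := h.orth a b c
  have e6 := h.orth a b' c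
  have e7 := h.orth a' b c
  have e8 := h.orth a' b' c
  have addl : ∀ u v w : A, lie (u + v) w = lie u w + lie v w := by
    intro u v w; simp only [lie, add_mul, mul_add]; abel
  have addr : ∀ u v w : A, lie u (v + w) = lie u v + lie u w := by
    intro u v w; simp only [lie, add_mul, mul_add]; abel
  have jaddl : ∀ u v w : A, jor (u + v) w = jor u w + jor v w := by
    intro u v w; simp only [jor, add_mul, mul_add]; abel
  have jaddr : ∀ u v w : A, jor u (v + w) = jor u v + jor u w := by
    intro u v w; simp only [jor, add_mul, mul_add]; abel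
  simp only [addl, addr, jaddl, jaddr, asr_add_left, asr_add_mid] at *
  linear_combination (norm := module) e - e1 - e2 - e3 - e4 + e5 + e6 + e7 + e8

/-- The commutator Jacobian. -/
def J3 (a b c : A) : A := lie (lie a b) c + lie (lie b c) a + lie (lie c a) b

theorem IsAlt.J3_eq (a b c : A) : J3 a b c = (6 : ℤ) • asr a b c := h.jac a b c

theorem IsAlt.G (a a' b b' c : A) :
    jor (lie a b) (J3 a' b' c) + jor (lie a' b) (J3 a b' c)
      + jor (lie a b') (J3 a' b c) + jor (lie a' b') (J3 a b c) = 0 := by
  have e := h.orthLin a a' b b' c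
  have sr : ∀ u v : A, jor u ((6 : ℤ) • v) = (6 : ℤ) • jor u v := by
    intro u v; simp only [jor, smul_mul_assoc, mul_smul_comm, smul_add]
  rw [h.J3_eq, h.J3_eq, h.J3_eq, h.J3_eq, sr, sr, sr, sr, ← smul_add, ← smul_add, ← smul_add, e,
    smul_zero]

theorem IsAlt.J3der (a b z w : A) :
    J3 (jor a b) z w = jor a (J3 b z w) + jor (J3 a z w) b := by
  have e := h.jder a b z w
  have sr : ∀ u v : A, jor u ((6 : ℤ) • v) = (6 : ℤ) • jor u v := by
    intro u v; simp only [jor, smul_mul_assoc, mul_smul_comm, smul_add]
  have sl : ∀ u v : A, jor ((6 : ℤ) • u) v = (6 : ℤ) • jor u v := by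
    intro u v; simp only [jor, smul_mul_assoc, mul_smul_comm, smul_add]
  rw [h.J3_eq, h.J3_eq, h.J3_eq, sr, sl, e, smul_add]

end

end MP4b3fad
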