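import Pool.Agent.Lib.MP_4b3fad_al.Eval

/-!
The even part `Q` of `S[η₁,…,η₇]` is an alternative ring; naturality of `nA`.
-/

namespace MP4b3fad

universe u v

open SBase Ext

/-- no 2-torsion -/
def TF (M : Type u) [AddCommGroup M] : Prop := ∀ x : M, (2 : ℤ) • x = 0 → x = 0

theorem TF.ext {M : Type u} [SBase M] (h : TF M) : TF (Ext M) := by
  intro x hx
  apply Ext.ext
  · exact h _ (congrArg Prod.fst hx)
  · exact h _ (congrArg Prod.snd hx)

theorem S_TF : TF S := by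
  intro x hx
  funext k
  have e := congrFun hx k
  rw [S_zsmul_apply, S_zero_apply] at e
  rw [S_zero_apply]
  omega

/-- the subring of even elements -/
def evenSub (M : Type u) [SBase M] : NonUnitalSubring M where
  carrier := {x | H false x}
  add_mem' := fun hx hy => H_add _ _ _ hx hy
  zero_mem' := H_zero _
  neg_mem' := fun hx => H_neg _ _ hx
  mul_mem' := fun hx hy => H_mul _ _ _ _ hx hy

theorem evenSub_isAlt {M : Type u} [SBase M] (h : IsSAlt M) (ht : TF M) :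
    IsAlt (evenSub M) := by
  constructor
  · intro x y
    apply Subtype.ext
    change asr (x : M) x y = 0
    have e := h.left false false false _ _ _ x.2 x.2 y.2
    apply ht
    rw [Bool.and_false, sg_false, one_smul] at e
    rw [two_zsmul]
    exact e
  · intro x y
    apply Subtype.ext
    change asr (y : M) x x = 0
    have e := h.right false false false _ _ _ y.2 x.2 x.2
    apply ht
    rw [Bool.and_false, sg_false, one_smul] at e
    rw [two_zsmul]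
    exact e

/-- the Grassmann envelope of `S` in seven Grassmann variables -/
abbrev Q : Type := evenSub (E7 S)

theorem Q_isAlt : IsAlt Q :=
  evenSub_isAlt S_isSAlt.ext.ext.ext.ext.ext.ext.ext S_TF.ext.ext.ext.ext.ext.ext.ext

section
variable {M : Type u} {N : Type v} [SBase M] [SBase N] (f : M →ₙ+* N)

theorem map_cm' (p q : Bool) (a b : M) : f (cm p q a b) = cm p q (f a) (f b) := by
  simp only [cm, map_sub, map_mul, map_zsmul]

theorem map_jd' (p q : Bool) (a b : M) : f (jd p q a b) = jd p q (f a) (f b) := by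
  simp only [jd, map_add, map_mul, map_zsmul]

theorem map_nn (X Y : M) : f (nn X Y) = nn (f X) (f Y) := by
  simp only [nn, map_add, map_zsmul, map_cm', map_jd']

variable (hf : ∀ x, f (sig x) = sig (f x))

/-- functoriality of `M ↦ M[ξ₁,…,ξ₅]` -/
def map5 : E5 M →ₙ+* E5 N :=
  Ext.map (Ext.map (Ext.map (Ext.map (Ext.map f hf) (Ext.map_sig f hf))
    (Ext.map_sig _ (Ext.map_sig f hf))) (Ext.map_sig _ (Ext.map_sig _ (Ext.map_sig f hf))))
    (Ext.map_sig _ (Ext.map_sig _ (Ext.map_sig _ (Ext.map_sig f hf))))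

theorem map5_io5 (x : M) : map5 f hf (io5 x) = io5 (f x) := by
  unfold map5 io5
  rw [Ext.map_io, Ext.map_io, Ext.map_io, Ext.map_io, Ext.map_io]

theorem map_mk (x y : M) : Ext.map f hf (mk x y) = mk (f x) (f y) := rfl

theorem map5_Y5 (y₁ y₂ y₃ y₄ y₅ : M) :
    map5 f hf (Y5 y₁ y₂ y₃ y₄ y₅) = Y5 (f y₁) (f y₂) (f y₃) (f y₄) (f y₅) := by
  unfold map5 Y5
  simp only [map_mk, Ext.map_io, map_zero]

theorem map5_top5 (x : E5 M) : top5 (map5 f hf x) = f (top5 x) := rfl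

include hf in
theorem map_nA (x y₁ y₂ y₃ y₄ y₅ : M) :
    f (nA x y₁ y₂ y₃ y₄ y₅) = nA (f x) (f y₁) (f y₂) (f y₃) (f y₄) (f y₅) := by
  unfold nA
  rw [← map5_top5 f hf, map_nn, map5_io5, map5_Y5]

end

/-- An additive and multiplicative map from an ordinary ring to the even part of `M` carries
`nR` to `nA`. -/
theorem map_nR {A : Type u} {M : Type v} [NonUnitalNonAssocRing A] [SBase M] (f : A →ₙ+* M)
    (hf : ∀ x, H false (f x)) (x y₁ y₂ y₃ y₄ y₅ : A) :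
    f (nR x y₁ y₂ y₃ y₄ y₅) = nA (f x) (f y₁) (f y₂) (f y₃) (f y₄) (f y₅) := by
  let g : Triv A →ₙ+* M := f
  have hg : ∀ x : Triv A, g (sig x) = sig (g x) := by
    intro x
    have e := sig_H _ _ (hf x)
    rw [sg_false, one_smul] at e
    exact e.symm
  exact map_nA g hg x y₁ y₂ y₃ y₄ y₅

theorem map_asr {A : Type u} {B : Type v} [NonUnitalNonAssocRing A] [NonUnitalNonAssocRing B]
    (f : A →ₙ+* B) (x y z : A) : f (asr x y z) = asr (f x) (f y) (f z) := by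
  simp only [asr, map_sub, map_mul]

/-- The eight elements `e, η₁ b, η₂ b, η₃ b, η₄ b, η₅ c, η₆ c, η₇ c` of `Q`. -/
def qT : Fin 8 → Tri := ![eT, bT 0, bT 1, bT 2, bT 3, cT 4, cT 5, cT 6]

theorem hqT : ∀ i : Fin 8, hT 7 false (qT i) = true := by decide +kernel

def qv (i : Fin 8) : Q := ⟨s7.f (qT i), s7.hom _ _ (hqT i)⟩

theorem witness_gen {A : Type u} {M : Type v} [NonUnitalNonAssocRing A] [SBase M] (ψ : A →ₙ+* M)
    (hψ : ∀ x, H false (ψ x)) (x y₁ y₂ y₃ y₄ c₁ c₂ c₃ : A) :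
    ψ (asr ((((24 : ℤ) • nR x y₁ y₂ y₃ y₄ x) * x - x * ((24 : ℤ) • nR x y₁ y₂ y₃ y₄ x)) * c₁) c₂ c₃)
      = (24 : ℤ) • asr ((nA (ψ x) (ψ y₁) (ψ y₂) (ψ y₃) (ψ y₄) (ψ x) * ψ x
        - ψ x * nA (ψ x) (ψ y₁) (ψ y₂) (ψ y₃) (ψ y₄) (ψ x)) * ψ c₁) (ψ c₂) (ψ c₃) := by
  rw [map_asr, map_mul, map_sub, map_mul, map_mul, map_zsmul, map_nR ψ hψ, smul_mul_assoc,
    mul_smul_comm, ← smul_sub, smul_mul_assoc, asr_zsmul_left]

theorem witness_gen' {A : Type u} {M : Type v} [NonUnitalNonAssocRing A] [SBase M] (ψ : A →ₙ+* M)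
    (hψ : ∀ x, H false (ψ x)) (x y₁ y₂ y₃ y₄ c₁ c₂ c₃ : A) (x' y₁' y₂' y₃' y₄' c₁' c₂' c₃' : M)
    (hx : ψ x = x') (h₁ : ψ y₁ = y₁') (h₂ : ψ y₂ = y₂') (h₃ : ψ y₃ = y₃') (h₄ : ψ y₄ = y₄')
    (k₁ : ψ c₁ = c₁') (k₂ : ψ c₂ = c₂') (k₃ : ψ c₃ = c₃')
    (hne : (24 : ℤ) • asr ((nA x' y₁' y₂' y₃' y₄' x' * x' - x' * nA x' y₁' y₂' y₃' y₄' x') * c₁')
      c₂' c₃' ≠ 0) :
    asr ((((24 : ℤ) • nR x y₁ y₂ y₃ y₄ x) * x - x * ((24 : ℤ) • nR x y₁ y₂ y₃ y₄ x)) * c₁) c₂ c₃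
      ≠ 0 := by
  subst hx h₁ h₂ h₃ h₄ k₁ k₂ k₃
  intro h
  apply hne
  rw [← witness_gen ψ hψ, h, map_zero]

theorem witness_aux {A : Type u} [NonUnitalNonAssocRing A] (ψ : A →ₙ+* E7 S)
    (hψ : ∀ x, H false (ψ x)) (a : Fin 8 → A) (ha0 : ψ (a 0) = s7.f eT)
    (ha1 : ψ (a 1) = s7.f (bT 0)) (ha2 : ψ (a 2) = s7.f (bT 1)) (ha3 : ψ (a 3) = s7.f (bT 2))
    (ha4 : ψ (a 4) = s7.f (bT 3)) (ha5 : ψ (a 5) = s7.f (cT 4)) (ha6 : ψ (a 6) = s7.f (cT 5))
    (ha7 : ψ (a 7) = s7.f (cT 6)) :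
    asr ((((24 : ℤ) • nR (a 0) (a 1) (a 2) (a 3) (a 4) (a 0)) * a 0
      - a 0 * ((24 : ℤ) • nR (a 0) (a 1) (a 2) (a 3) (a 4) (a 0))) * a 5) (a 6) (a 7) ≠ 0 := by
  apply witness_gen' ψ hψ (a 0) (a 1) (a 2) (a 3) (a 4) (a 5) (a 6) (a 7) _ _ _ _ _ _ _ _
    ha0 ha1 ha2 ha3 ha4 ha5 ha6 ha7
  have h := final_ne
  convert h using 1

/-- Eight elements of `Q` at which the relevant expression does not vanish. -/
theorem Q_witness {A : Type u} [NonUnitalNonAssocRing A] (φ : A →ₙ+* Q)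
    (a : Fin 8 → A) (ha : ∀ i, φ (a i) = qv i) :
    asr ((((24 : ℤ) • nR (a 0) (a 1) (a 2) (a 3) (a 4) (a 0)) * a 0
      - a 0 * ((24 : ℤ) • nR (a 0) (a 1) (a 2) (a 3) (a 4) (a 0))) * a 5) (a 6) (a 7) ≠ 0 := by
  have key : ∀ i, ((NonUnitalSubringClass.subtype (evenSub (E7 S))).comp φ) (a i)
      = s7.f (qT i) := by
    intro i
    rw [NonUnitalRingHom.comp_apply, ha i]
    rfl
  have q0 : qT 0 = eT := rfl
  have q1 : qT 1 = bT 0 := rfl
  have q2 : qT 2 = bT 1 := rfl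
  have q3 : qT 3 = bT 2 := rfl
  have q4 : qT 4 = bT 3 := rfl
  have q5 : qT 5 = cT 4 := rfl
  have q6 : qT 6 = cT 5 := rfl
  have q7 : qT 7 = cT 6 := rfl
  exact witness_aux ((NonUnitalSubringClass.subtype (evenSub (E7 S))).comp φ)
    (fun x => (φ x).2) a ((key 0).trans (congrArg s7.f q0)) ((key 1).trans (congrArg s7.f q1))
    ((key 2).trans (congrArg s7.f q2)) ((key 3).trans (congrArg s7.f q3))
    ((key 4).trans (congrArg s7.f q4)) ((key 5).trans (congrArg s7.f q5))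
    ((key 6).trans (congrArg s7.f q6)) ((key 7).trans (congrArg s7.f q7))

/-- The same, with the ring `Q` packed in an existential statement. -/
theorem Q_exists : ∃ (B : Type) (_ : NonUnitalNonAssocRing B) (q : Fin 8 → B), IsAlt B ∧
    ∀ (A : Type u) [NonUnitalNonAssocRing A] (φ : A →ₙ+* B) (a : Fin 8 → A),
      (∀ i, φ (a i) = q i) →
      asr ((((24 : ℤ) • nR (a 0) (a 1) (a 2) (a 3) (a 4) (a 0)) * a 0
        - a 0 * ((24 : ℤ) • nR (a 0) (a 1) (a 2) (a 3) (a 4) (a 0))) * a 5) (a 6) (a 7) ≠ 0 :=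
  ⟨Q, inferInstance, qv, Q_isAlt, fun _ _ φ a ha => Q_witness φ a ha⟩

end MP4b3fad
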