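import Pool.Agent.Lib.MP_4b3fad_al.SAlg

/-!
The ring structure on `S = ℤ³³` given by the table, and its alternative super laws.
-/

namespace MP4b3fad

open SBase

/-- the free abelian group on the 33 basis elements -/
def S : Type := Fin 33 → ℤ

instance : AddCommGroup S := inferInstanceAs (AddCommGroup (Fin 33 → ℤ))

/-- basis elements (`0` for an index `≥ 33`) -/
def dl (i : ℕ) : S := fun k => if k.val = i then 1 else 0

def toS : List (ℕ × ℤ) → S
  | [] => 0
  | t :: L => t.2 • dl t.1 + toS L

instance : Mul S := ⟨fun f g => ∑ i : Fin 33, ∑ j : Fin 33, (f i * g j) • toS (bm i j)⟩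

theorem S_mul_def (f g : S) : f * g = ∑ i : Fin 33, ∑ j : Fin 33, (f i * g j) • toS (bm i j) := rfl

theorem S_add_apply (f g : S) (k : Fin 33) : (f + g) k = f k + g k := rfl
theorem S_zero_apply (k : Fin 33) : (0 : S) k = 0 := rfl
theorem S_neg_apply (f : S) (k : Fin 33) : (-f) k = - f k := rfl
theorem S_zsmul_apply (n : ℤ) (f : S) (k : Fin 33) : (n • f) k = n * f k := by
  have : (n • f) k = n • f k := rfl
  rw [this, smul_eq_mul]

instance : NonUnitalNonAssocRing S :=
  { (inferInstance : AddCommGroup S), (inferInstance : Mul S) with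
    left_distrib := by
      intro a b c
      simp only [S_mul_def, S_add_apply, mul_add, add_smul, Finset.sum_add_distrib]
    right_distrib := by
      intro a b c
      simp only [S_mul_def, S_add_apply, add_mul, add_smul, Finset.sum_add_distrib]
    zero_mul := by
      intro a
      simp [S_mul_def, S_zero_apply]
    mul_zero := by
      intro a
      simp [S_mul_def, S_zero_apply] }

theorem dl_big {i : ℕ} (h : 33 ≤ i) : dl i = 0 := by
  funext k
  simp only [dl]
  rw [if_neg (by omega)]
  rfl

theorem look_nil (j : ℕ) (L : List (ℕ × List (ℕ × ℤ))) (h : ∀ t ∈ L, t.1 ≠ j) :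
    look j L = [] := by
  induction L with
  | nil => rfl
  | cons t L ih =>
    have h1 : t.1 ≠ j := h t (by simp)
    unfold look
    have h2 : Nat.beq j t.1 = false := by
      cases hb : Nat.beq j t.1 with
      | false => rfl
      | true => exact absurd (Nat.eq_of_beq_eq_true hb).symm h1
    rw [h2]
    exact ih fun s hs => h s (by simp [hs])

theorem bm_big_left {i j : ℕ} (h : 33 ≤ i) : bm i j = [] := by
  unfold bm
  rw [List.getD_eq_default]
  · rfl
  · exact h

theorem bm_big_right {i j : ℕ} (h : 33 ≤ j) : bm i j = [] := by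
  unfold bm
  apply look_nil
  intro t ht e
  have hk := check_keys
  unfold checkKeys at hk
  rw [List.all_eq_true] at hk
  by_cases hi : i < tabRows.length
  · have hr : tabRows.getD i [] ∈ tabRows := by
      rw [List.getD_eq_getElem _ _ hi]
      exact List.getElem_mem hi
    have h1 := hk _ hr
    rw [List.all_eq_true] at h1
    have h2 := h1 _ ht
    simp only [decide_eq_true_eq] at h2
    omega
  · rw [List.getD_eq_default _ _ (by omega)] at ht
    simp at ht

theorem dl_mul_dl (i j : ℕ) : dl i * dl j = toS (bm i j) := by
  by_cases hi : i < 33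
  · by_cases hj : j < 33
    · rw [S_mul_def, Finset.sum_eq_single (⟨i, hi⟩ : Fin 33), Finset.sum_eq_single (⟨j, hj⟩ : Fin 33)]
      · simp [dl]
      · intro b _ hb
        have : (b : ℕ) ≠ j := fun e => hb (Fin.ext e)
        simp [dl, this]
      · intro h; exact absurd (Finset.mem_univ _) h
      · intro b _ hb
        have : (b : ℕ) ≠ i := fun e => hb (Fin.ext e)
        simp [dl, this]
      · intro h; exact absurd (Finset.mem_univ _) h
    · rw [dl_big (by omega : 33 ≤ j), mul_zero, bm_big_right (by omega)]; rfl
  · rw [dl_big (by omega : 33 ≤ i), zero_mul, bm_big_left (by omega)]; rfl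

theorem toS_append (L L' : List (ℕ × ℤ)) : toS (L ++ L') = toS L + toS L' := by
  induction L with
  | nil => simp [toS]
  | cons t L ih => simp only [List.cons_append, toS, ih, add_assoc]

theorem toS_map (L : List (ℕ × ℤ)) (c d : ℤ) :
    toS (L.map fun s => (s.1, c * (d * s.2))) = (c * d) • toS L := by
  induction L with
  | nil => simp [toS]
  | cons t L ih => simp only [List.map_cons, toS, ih, smul_add, smul_smul, mul_assoc]

theorem toS_mulB (a : List (ℕ × ℤ)) (l : ℕ) (c : ℤ) : toS (mulB a l c) = c • (toS a * dl l) := by
  induction a with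
  | nil => simp [mulB, toS]
  | cons t a ih =>
    have e : mulB (t :: a) l c = ((bm t.1 l).map fun s => (s.1, c * (t.2 * s.2))) ++ mulB a l c := rfl
    rw [e, toS_append, toS_map, ih, ← dl_mul_dl]
    simp only [toS, add_mul, smul_add, smul_mul_assoc, smul_smul]

theorem toS_mulB' (i : ℕ) (c : ℤ) (a : List (ℕ × ℤ)) : toS (mulB' i c a) = c • (dl i * toS a) := by
  induction a with
  | nil => simp [mulB', toS]
  | cons t a ih =>
    have e : mulB' i c (t :: a) = ((bm i t.1).map fun s => (s.1, c * (t.2 * s.2))) ++ mulB' i c a :=
      rfl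
    rw [e, toS_append, toS_map, ih, ← dl_mul_dl]
    simp only [toS, mul_add, smul_add, mul_smul_comm, smul_smul]

theorem toS_insL (i : ℕ) (c : ℤ) (L : List (ℕ × ℤ)) : toS (insL i c L) = c • dl i + toS L := by
  induction L with
  | nil => simp [insL, toS]
  | cons t L ih =>
    unfold insL
    cases h : Nat.beq i t.1 with
    | true =>
      have : i = t.1 := Nat.eq_of_beq_eq_true h
      simp only [toS, add_smul, this, add_assoc]
    | false => simp only [toS, ih]; abel

theorem toS_colL (L : List (ℕ × ℤ)) : toS (colL L) = toS L := by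
  induction L with
  | nil => rfl
  | cons t L ih => simp only [colL, toS_insL, ih, toS]

theorem toS_all_zero (L : List (ℕ × ℤ)) (h : (L.all fun t => decide (t.2 = 0)) = true) :
    toS L = 0 := by
  induction L with
  | nil => rfl
  | cons t L ih =>
    simp only [List.all_cons, Bool.and_eq_true, decide_eq_true_eq] at h
    simp only [toS, h.1, zero_smul, zero_add]
    exact ih h.2

theorem toS_zeroL (L : List (ℕ × ℤ)) (h : zeroL L = true) : toS L = 0 := by
  rw [← toS_colL]
  exact toS_all_zero _ h

theorem bpar_bm {i j : ℕ} (hi : i < 33) (hj : j < 33) :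
    ∀ t ∈ bm i j, bpar t.1 = xor (bpar i) (bpar j) := by
  have h := check_par
  unfold checkPar at h
  rw [List.all_eq_true] at h
  have h1 := h i (List.mem_range.mpr hi)
  rw [List.all_eq_true] at h1
  have h2 := h1 j (List.mem_range.mpr hj)
  rw [List.all_eq_true] at h2
  intro t ht
  have h3 := h2 t ht
  simpa using h3

theorem toS_apply_zero (L : List (ℕ × ℤ)) (k : Fin 33) (h : ∀ t ∈ L, t.1 ≠ k.val) :
    toS L k = 0 := by
  induction L with
  | nil => rfl
  | cons t L ih =>
    have h1 : t.1 ≠ k.val := h t (by simp)
    rw [toS, S_add_apply, S_zsmul_apply, ih fun s hs => h s (by simp [hs])]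
    simp only [dl]
    rw [if_neg (fun e => h1 e.symm)]
    simp

instance : SBase S :=
  { (inferInstance : NonUnitalNonAssocRing S) with
    sig := { toFun := fun f => fun k => sg (bpar k.val) * f k
             map_zero' := by
              funext k
              exact mul_zero _
             map_add' := by
              intro f g
              funext k
              exact mul_add _ _ _ }
    H := fun p f => ∀ k : Fin 33, bpar k.val ≠ p → f k = 0
    H_zero := fun p k _ => rfl
    H_add := fun p f g hf hg k hk => by rw [S_add_apply, hf k hk, hg k hk, add_zero]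
    H_neg := fun p f hf k hk => by rw [S_neg_apply, hf k hk, neg_zero]
    H_mul := by
      intro p q f g hf hg k hk
      have e : ∀ F : Fin 33 → S, (∑ i, F i) k = ∑ i, F i k := by
        intro F
        exact Finset.sum_apply (M := fun _ => ℤ) _ _ _
      rw [S_mul_def, e]
      apply Finset.sum_eq_zero
      intro i _
      rw [e]
      apply Finset.sum_eq_zero
      intro j _
      rw [S_zsmul_apply]
      by_cases hi : bpar i.val = p
      · by_cases hj : bpar j.val = q
        · rw [toS_apply_zero _ k, mul_zero]
          intro t ht e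
          apply hk
          rw [← e, bpar_bm i.isLt j.isLt t ht, hi, hj]
        · rw [hg j hj]; simp
      · rw [hf i hi]; simp
    sig_H := by
      intro p f hf
      funext k
      change sg (bpar k.val) * f k = (sg p • f) k
      rw [S_zsmul_apply]
      by_cases hk : bpar k.val = p
      · rw [hk]
      · rw [hf k hk]; simp }

theorem S_H_def (p : Bool) (f : S) : H p f ↔ ∀ k : Fin 33, bpar k.val ≠ p → f k = 0 := Iff.rfl

theorem S_decomp (f : S) : f = ∑ k : Fin 33, f k • dl k.val := by
  funext j
  have e : ∀ F : Fin 33 → S, (∑ i, F i) j = ∑ i, F i j := by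
    intro F
    exact Finset.sum_apply (M := fun _ => ℤ) _ _ _
  rw [e, Finset.sum_eq_single j]
  · rw [S_zsmul_apply]; simp [dl]
  · intro b _ hb
    rw [S_zsmul_apply]
    have : (j : ℕ) ≠ b := fun h => hb (Fin.ext h.symm)
    simp [dl, this]
  · intro h; exact absurd (Finset.mem_univ _) h

theorem H_ind {p : Bool} (P : S → Prop) (h0 : P 0) (hadd : ∀ a b, P a → P b → P (a + b))
    (hd : ∀ (k : ℕ) (n : ℤ), k < 33 → bpar k = p → P (n • dl k)) : ∀ f : S, H p f → P f := by
  intro f hf
  rw [S_decomp f]
  apply Finset.sum_induction _ P hadd h0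
  intro k _
  by_cases hk : bpar k.val = p
  · exact hd _ _ k.isLt hk
  · rw [hf k hk, zero_smul]; exact h0

theorem asr_zsmul3 (n m k : ℤ) (a b c : S) :
    asr (n • a) (m • b) (k • c) = (n * m * k) • asr a b c := by
  simp only [asr, smul_mul_assoc, mul_smul_comm, smul_sub, smul_smul]
  congr 2 <;> ring

theorem asr_dl (i j l : ℕ) (c : ℤ) : c • asr (dl i) (dl j) (dl l)
    = toS (mulB (bm i j) l c) + toS (mulB' i (-c) (bm j l)) := by
  rw [toS_mulB, toS_mulB', asr, ← dl_mul_dl, ← dl_mul_dl]
  simp only [neg_smul, sub_eq_add_neg, smul_add, smul_neg]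

theorem law_dl {i j l : ℕ} (hi : i < 33) (hj : j < 33) (hl : l < 33) :
    asr (dl i) (dl j) (dl l) + sg (bpar i && bpar j) • asr (dl j) (dl i) (dl l) = 0 ∧
    asr (dl i) (dl j) (dl l) + sg (bpar j && bpar l) • asr (dl i) (dl l) (dl j) = 0 := by
  have h := check_all i hi
  unfold checkRow at h
  rw [List.all_eq_true] at h
  have h1 := h j (List.mem_range.mpr hj)
  rw [List.all_eq_true] at h1
  have h2 := h1 l (List.mem_range.mpr hl)
  rw [Bool.and_eq_true] at h2
  have e1 := toS_zeroL _ h2.1
  have e2 := toS_zeroL _ h2.2
  constructor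
  · unfold law1 at e1
    rw [toS_append, toS_append, toS_append, ← add_assoc] at e1
    have f1 := asr_dl i j l 1
    rw [one_smul] at f1
    rw [f1, asr_dl j i l]
    exact e1
  · unfold law2 at e2
    rw [toS_append, toS_append, toS_append, ← add_assoc] at e2
    have f1 := asr_dl i j l 1
    rw [one_smul] at f1
    rw [f1, asr_dl i l j]
    exact e2

theorem asr_zero1 (b c : S) : asr 0 b c = 0 := by simp [asr]
theorem asr_zero2 (b c : S) : asr b 0 c = 0 := by simp [asr]
theorem asr_zero3 (b c : S) : asr b c 0 = 0 := by simp [asr]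
theorem asr_add1 (a a' b c : S) : asr (a + a') b c = asr a b c + asr a' b c := by
  simp only [asr, add_mul]; abel
theorem asr_add2 (a b b' c : S) : asr a (b + b') c = asr a b c + asr a b' c := by
  simp only [asr, add_mul, mul_add]; abel
theorem asr_add3 (a b c c' : S) : asr a b (c + c') = asr a b c + asr a b c' := by
  simp only [asr, mul_add]; abel

theorem S_isSAlt : IsSAlt S := by
  constructor
  · intro p q r x y z hx hy hz
    refine H_ind (fun x => asr x y z + sg (p && q) • asr y x z = 0) ?_ ?_ ?_ x hx
    · simp [asr_zero1, asr_zero2]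
    · intro a b ha hb
      rw [asr_add1, asr_add2, smul_add, add_add_add_comm, ha, hb, add_zero]
    · intro i n hi hip
      refine H_ind (fun y => asr (n • dl i) y z + sg (p && q) • asr y (n • dl i) z = 0) ?_ ?_ ?_ y hy
      · simp [asr_zero1, asr_zero2]
      · intro a b ha hb
        rw [asr_add1, asr_add2, smul_add, add_add_add_comm, ha, hb, add_zero]
      · intro j m hj hjp
        refine H_ind (fun z => asr (n • dl i) (m • dl j) z
          + sg (p && q) • asr (m • dl j) (n • dl i) z = 0) ?_ ?_ ?_ z hz
        · simp [asr_zero3]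
        · intro a b ha hb
          rw [asr_add3, asr_add3, smul_add, add_add_add_comm, ha, hb, add_zero]
        · intro l k hl _
          have e := (law_dl hi hj hl).1
          rw [hip, hjp] at e
          rw [asr_zsmul3, asr_zsmul3, mul_comm m n, smul_comm, ← smul_add, e, smul_zero]
  · intro p q r x y z hx hy hz
    refine H_ind (fun x => asr x y z + sg (q && r) • asr x z y = 0) ?_ ?_ ?_ x hx
    · simp [asr_zero1]
    · intro a b ha hb
      rw [asr_add1, asr_add1, smul_add, add_add_add_comm, ha, hb, add_zero]
    · intro i n hi _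
      refine H_ind (fun y => asr (n • dl i) y z + sg (q && r) • asr (n • dl i) z y = 0)
        ?_ ?_ ?_ y hy
      · simp [asr_zero2, asr_zero3]
      · intro a b ha hb
        rw [asr_add2, asr_add3, smul_add, add_add_add_comm, ha, hb, add_zero]
      · intro j m hj hjp
        refine H_ind (fun z => asr (n • dl i) (m • dl j) z
          + sg (q && r) • asr (n • dl i) z (m • dl j) = 0) ?_ ?_ ?_ z hz
        · simp [asr_zero2, asr_zero3]
        · intro a b ha hb
          rw [asr_add3, asr_add2, smul_add, add_add_add_comm, ha, hb, add_zero]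
        · intro l k hl hlp
          have e := (law_dl hi hj hl).2
          rw [hjp, hlp] at e
          rw [asr_zsmul3, asr_zsmul3, show n * k * m = n * m * k by ring, smul_comm, ← smul_add, e,
            smul_zero]

end MP4b3fad
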