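import Pool.Agent.Lib.MP_4b3fad_al.Nuc
import Pool.Agent.Lib.MP_4b3fad_al.SRing

/-!
Evaluation of the nuclear element in the Grassmann envelope of `S`.
-/

namespace MP4b3fad

open SBase Ext

/-- sparse elements of the iterated extensions of `S` -/
inductive Tri where
  | z
  | lf (l : List (ℕ × ℤ))
  | nd (a b : Tri)
deriving DecidableEq

/-- a node, with zero detection -/
def ndz (a b : Tri) : Tri :=
  match a, b with
  | .z, .z => .z
  | a, b => .nd a b

/-- drop zero coefficients -/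
def clean : List (ℕ × ℤ) → List (ℕ × ℤ)
  | [] => []
  | t :: L => if t.2 = 0 then clean L else t :: clean L

def lfz (l : List (ℕ × ℤ)) : Tri :=
  match clean (colL l) with
  | [] => .z
  | L => .lf L

/-- product of sparse elements of `S` -/
def mulL : List (ℕ × ℤ) → List (ℕ × ℤ) → List (ℕ × ℤ)
  | _, [] => []
  | a, t :: L => mulB a t.1 t.2 ++ mulL a L

def addT : ℕ → Tri → Tri → Tri
  | 0, a, b =>
    match a, b with
    | .lf l, .lf m => lfz (l ++ m)
    | .lf l, _ => .lf l
    | _, .lf m => .lf m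
    | _, _ => .z
  | k + 1, a, b =>
    match a, b with
    | .nd a₁ a₂, .nd b₁ b₂ => ndz (addT k a₁ b₁) (addT k a₂ b₂)
    | .nd a₁ a₂, _ => .nd a₁ a₂
    | _, .nd b₁ b₂ => .nd b₁ b₂
    | _, _ => .z

def smT : ℕ → ℤ → Tri → Tri
  | 0, n, a =>
    match a with
    | .lf l => .lf (l.map fun s => (s.1, 1 * (n * s.2)))
    | _ => .z
  | k + 1, n, a =>
    match a with
    | .nd a₁ a₂ => .nd (smT k n a₁) (smT k n a₂)
    | _ => .z

def sigT : ℕ → Tri → Tri
  | 0, a =>
    match a with
    | .lf l => .lf (l.map fun s => (s.1, sg (bpar s.1) * s.2))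
    | _ => .z
  | k + 1, a =>
    match a with
    | .nd a₁ a₂ => .nd (sigT k a₁) (smT k (-1) (sigT k a₂))
    | _ => .z

def mulT : ℕ → Tri → Tri → Tri
  | 0, a, b =>
    match a, b with
    | .lf l, .lf m => lfz (mulL l m)
    | _, _ => .z
  | k + 1, a, b =>
    match a, b with
    | .nd a₁ a₂, .nd b₁ b₂ =>
      ndz (mulT k a₁ b₁) (addT k (mulT k a₂ b₁) (mulT k (sigT k a₁) b₂))
    | _, _ => .z

/-- homogeneity test -/
def hT : ℕ → Bool → Tri → Bool
  | 0, p, a =>
    match a with
    | .lf l => l.all fun t => bpar t.1 == p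
    | _ => true
  | k + 1, p, a =>
    match a with
    | .nd a₁ a₂ => hT k p a₁ && hT k (!p) a₂
    | _ => true

theorem toS_clean (L : List (ℕ × ℤ)) : toS (clean L) = toS L := by
  induction L with
  | nil => rfl
  | cons t L ih =>
    unfold clean
    split
    · rename_i h
      rw [ih, toS, h]; simp
    · rw [toS, ih, toS]

theorem toS_mulL (a b : List (ℕ × ℤ)) : toS (mulL a b) = toS a * toS b := by
  induction b with
  | nil => simp [mulL, toS]
  | cons t L ih =>
    simp only [mulL, toS_append, toS_mulB, ih, toS, mul_add, mul_smul_comm]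

/-- A semantics of sparse elements of depth `k` in `M`. -/
structure Sem (M : Type) [SBase M] (k : ℕ) where
  f : Tri → M
  z : f .z = 0
  add : ∀ a b, f (addT k a b) = f a + f b
  sm : ∀ n a, f (smT k n a) = n • f a
  sig : ∀ a, f (sigT k a) = SBase.sig (f a)
  mul : ∀ a b, f (mulT k a b) = f a * f b
  hom : ∀ p a, hT k p a = true → SBase.H p (f a)

def sem0f : Tri → S
  | .lf l => toS l
  | _ => 0

theorem sem0f_lfz (l : List (ℕ × ℤ)) : sem0f (lfz l) = toS l := by
  have h : toS (clean (colL l)) = toS l := by rw [toS_clean, toS_colL]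
  unfold lfz
  cases hc : clean (colL l) with
  | nil => rw [← h, hc]; rfl
  | cons t L => rw [← h, hc]; rfl

theorem sig_toS (l : List (ℕ × ℤ)) :
    toS (l.map fun s => (s.1, sg (bpar s.1) * s.2)) = SBase.sig (toS l) := by
  induction l with
  | nil => simp [toS]
  | cons t L ih =>
    simp only [List.map_cons, toS, ih, map_add]
    congr 1
    funext k
    change _ = sg (bpar k.val) * ((t.2 • dl t.1) k)
    rw [S_zsmul_apply, S_zsmul_apply]
    simp only [dl]
    split
    · rename_i h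
      rw [h]; ring
    · ring

def sem0 : Sem S 0 where
  f := sem0f
  z := rfl
  add := by
    intro a b
    cases a with
    | z => cases b <;> simp [addT, sem0f]
    | nd a₁ a₂ => cases b <;> simp [addT, sem0f]
    | lf l =>
      cases b with
      | z => simp [addT, sem0f]
      | nd b₁ b₂ => simp [addT, sem0f]
      | lf m =>
        change sem0f (lfz (l ++ m)) = _
        rw [sem0f_lfz, toS_append]; rfl
  sm := by
    intro n a
    cases a with
    | z => simp [smT, sem0f]
    | nd a₁ a₂ => simp [smT, sem0f]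
    | lf l =>
      change toS _ = n • toS l
      rw [toS_map, one_mul]
  sig := by
    intro a
    cases a with
    | z => simp [sigT, sem0f]
    | nd a₁ a₂ => simp [sigT, sem0f]
    | lf l => exact sig_toS l
  mul := by
    intro a b
    cases a with
    | z => cases b <;> simp [mulT, sem0f]
    | nd a₁ a₂ => cases b <;> simp [mulT, sem0f]
    | lf l =>
      cases b with
      | z => simp [mulT, sem0f]
      | nd b₁ b₂ => simp [mulT, sem0f]
      | lf m =>
        change sem0f (lfz (mulL l m)) = _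
        rw [sem0f_lfz, toS_mulL]; rfl
  hom := by
    intro p a h
    cases a with
    | z => exact H_zero p
    | nd a₁ a₂ => exact H_zero p
    | lf l =>
      change H p (toS l)
      simp only [hT] at h
      induction l with
      | nil => exact H_zero p
      | cons t L ih =>
        simp only [List.all_cons, Bool.and_eq_true, beq_iff_eq] at h
        rw [toS]
        refine H_add _ _ _ ?_ (ih h.2)
        intro k hk
        rw [S_zsmul_apply]
        have : k.val ≠ t.1 := by
          intro e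
          rw [e] at hk
          exact hk h.1
        simp [dl, this]

section
variable {M : Type} [SBase M] {k : ℕ}

def Sem.extf (s : Sem M k) : Tri → Ext M
  | .nd a b => Ext.mk (s.f a) (s.f b)
  | _ => 0

theorem Sem.extf_ndz (s : Sem M k) (a b : Tri) : s.extf (ndz a b) = Ext.mk (s.f a) (s.f b) := by
  unfold ndz
  split
  · rw [s.z]; rfl
  · rfl

def Sem.ext (s : Sem M k) : Sem (Ext M) (k + 1) where
  f := s.extf
  z := rfl
  add := by
    intro a b
    cases a with
    | z => cases b <;> simp [addT, Sem.extf]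
    | lf l => cases b <;> simp [addT, Sem.extf]
    | nd a₁ a₂ =>
      cases b with
      | z => simp [addT, Sem.extf]
      | lf l => simp [addT, Sem.extf]
      | nd b₁ b₂ =>
        change s.extf (ndz _ _) = _
        rw [s.extf_ndz, s.add, s.add]; rfl
  sm := by
    intro n a
    cases a with
    | z => simp [smT, Sem.extf]
    | lf l => simp [smT, Sem.extf]
    | nd a₁ a₂ =>
      change Ext.mk _ _ = _
      rw [s.sm, s.sm]; rfl
  sig := by
    intro a
    cases a with
    | z => simp [sigT, Sem.extf]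
    | lf l => simp [sigT, Sem.extf]
    | nd a₁ a₂ =>
      change Ext.mk _ _ = _
      rw [s.sig, s.sm, s.sig]
      apply Ext.ext
      · rfl
      · change (-1 : ℤ) • _ = - _
        rw [neg_smul, one_smul]; rfl
  mul := by
    intro a b
    cases a with
    | z => cases b <;> simp [mulT, Sem.extf]
    | lf l => cases b <;> simp [mulT, Sem.extf]
    | nd a₁ a₂ =>
      cases b with
      | z => simp [mulT, Sem.extf]
      | lf l => simp [mulT, Sem.extf]
      | nd b₁ b₂ =>
        change s.extf (ndz _ _) = _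
        rw [s.extf_ndz, s.add, s.mul, s.mul, s.mul, s.sig]; rfl
  hom := by
    intro p a h
    cases a with
    | z => exact H_zero p
    | lf l => exact H_zero p
    | nd a b =>
      simp only [hT, Bool.and_eq_true] at h
      exact ⟨s.hom _ _ h.1, s.hom _ _ h.2⟩

theorem Sem.io_eq (s : Sem M k) (a : Tri) : s.ext.f (.nd a .z) = Ext.io (s.f a) := by
  change Ext.mk _ _ = Ext.mk _ _
  rw [s.z]

end

/-- `S[η₁,…,η₇]` -/
abbrev E7 (M : Type) : Type := Ext (Ext (Ext (Ext (Ext (Ext (Ext M))))))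

def s1 : Sem (Ext S) 1 := sem0.ext
def s2 : Sem (Ext (Ext S)) 2 := s1.ext
def s3 : Sem (Ext (Ext (Ext S))) 3 := s2.ext
def s4 : Sem (Ext (Ext (Ext (Ext S)))) 4 := s3.ext
def s5 : Sem (Ext (Ext (Ext (Ext (Ext S))))) 5 := s4.ext
def s6 : Sem (Ext (Ext (Ext (Ext (Ext (Ext S)))))) 6 := s5.ext
def s7 : Sem (E7 S) 7 := s6.ext
def s8 : Sem (Ext (E7 S)) 8 := s7.ext
def s9 : Sem (Ext (Ext (E7 S))) 9 := s8.ext
def s10 : Sem (Ext (Ext (Ext (E7 S)))) 10 := s9.ext
def s11 : Sem (Ext (Ext (Ext (Ext (E7 S))))) 11 := s10.ext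
def s12 : Sem (E5 (E7 S)) 12 := s11.ext

def cmT (k : ℕ) (p q : Bool) (a b : Tri) : Tri :=
  addT k (mulT k a b) (smT k (- sg (p && q)) (mulT k b a))
def jdT (k : ℕ) (p q : Bool) (a b : Tri) : Tri :=
  addT k (mulT k a b) (smT k (sg (p && q)) (mulT k b a))
def asrT (k : ℕ) (a b c : Tri) : Tri :=
  addT k (mulT k (mulT k a b) c) (smT k (-1) (mulT k a (mulT k b c)))

section
variable {M : Type} [SBase M] {k : ℕ} (s : Sem M k)

theorem f_cmT (p q : Bool) (a b : Tri) : s.f (cmT k p q a b) = cm p q (s.f a) (s.f b) := by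
  unfold cmT cm
  rw [s.add, s.mul, s.sm, s.mul, neg_smul, ← sub_eq_add_neg]

theorem f_jdT (p q : Bool) (a b : Tri) : s.f (jdT k p q a b) = jd p q (s.f a) (s.f b) := by
  unfold jdT jd
  rw [s.add, s.mul, s.sm, s.mul]

theorem f_asrT (a b c : Tri) : s.f (asrT k a b c) = asr (s.f a) (s.f b) (s.f c) := by
  unfold asrT asr
  rw [s.add, s.sm, s.mul, s.mul, s.mul, s.mul, neg_smul, one_smul, ← sub_eq_add_neg]

/-- sparse version of `nn`, with the subexpressions `[Y,Y]`, `[[Y,Y],Y]`, `[Y,X]` shared -/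
def nnT (k : ℕ) (X Y YY YYY YX : Tri) : Tri :=
  addT k (smT k (-4) (jdT k false true (cmT k false false YY X) YYY))
    (addT k (smT k 2 (jdT k false true (cmT k true true YX Y) YYY))
      (smT k 3 (jdT k true false (cmT k true false YX YY) YY)))

theorem f_nnT (X Y YY YYY YX : Tri) (h1 : s.f YY = cm true true (s.f Y) (s.f Y))
    (h2 : s.f YYY = cm false true (s.f YY) (s.f Y)) (h3 : s.f YX = cm true false (s.f Y) (s.f X)) :
    s.f (nnT k X Y YY YYY YX) = nn (s.f X) (s.f Y) := by
  unfold nnT nn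
  rw [s.add, s.add, s.sm, s.sm, s.sm, f_jdT, f_jdT, f_jdT, f_cmT, f_cmT, f_cmT, h2, h1, h3]

def topT : Tri → Tri
  | .nd _ b => b
  | _ => .z

theorem f_topT (a : Tri) : s.f (topT a) = (s.ext.f a).2 := by
  cases a with
  | z => exact s.z
  | lf l => exact s.z
  | nd a b => rfl

end

/-- the element `ηₖ₊₁ x` as a sparse element of depth `k + 1` -/
def etaT (x : Tri) : ℕ → Tri
  | 0 => .nd .z x
  | k + 1 => etaT (.nd x .z) k

/-- apply the inclusion `n` times -/
def ioT : ℕ → Tri → Tri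
  | 0, x => x
  | n + 1, x => ioT n (.nd x .z)

def eT : Tri := ioT 7 (.lf [(31, 1)])
def bT (k : ℕ) : Tri := ioT (6 - k) (.nd .z (ioT k (.lf [(1, 1)])))
def cT (k : ℕ) : Tri := ioT (6 - k) (.nd .z (ioT k (.lf [(0, 1)])))

def XT : Tri := ioT 5 eT
def YT : Tri :=
  .nd (.nd (.nd (.nd (.nd .z (bT 0)) (ioT 1 (bT 1))) (ioT 2 (bT 2))) (ioT 3 (bT 3))) (ioT 4 eT)

def YYT : Tri := cmT 12 true true YT YT
def YYYT : Tri := cmT 12 false true YYT YT
def YXT : Tri := cmT 12 true false YT XT
def NT : Tri := topT (topT (topT (topT (topT (nnT 12 XT YT YYT YYYT YXT)))))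
def RT : Tri :=
  asrT 7 (mulT 7 (cmT 7 false false NT eT) (cT 4)) (cT 5) (cT 6)

set_option maxRecDepth 100000 in
theorem RT_val : RT = .nd .z (.nd .z (.nd .z (.nd .z (.nd .z (.nd .z (.nd .z
    (.lf [(30, -1152)]))))))) := by
  decide +kernel

theorem s12_XT : s12.f XT = io5 (s7.f eT) := rfl

theorem s12_YT : s12.f YT
    = Y5 (s7.f (bT 0)) (s7.f (bT 1)) (s7.f (bT 2)) (s7.f (bT 3)) (s7.f eT) := rfl

theorem s7_NT : s7.f NT
    = nA (s7.f eT) (s7.f (bT 0)) (s7.f (bT 1)) (s7.f (bT 2)) (s7.f (bT 3)) (s7.f eT) := by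
  unfold NT nA top5
  rw [f_topT s7, f_topT s7.ext, f_topT s7.ext.ext, f_topT s7.ext.ext.ext,
    f_topT s7.ext.ext.ext.ext]
  change (s12.f _).2.2.2.2.2 = _
  rw [f_nnT s12 XT YT YYT YYYT YXT (f_cmT s12 _ _ _ _) (f_cmT s12 _ _ _ _) (f_cmT s12 _ _ _ _),
    s12_XT, s12_YT]

theorem s7_RT : s7.f RT = asr ((s7.f NT * s7.f eT - s7.f eT * s7.f NT) * s7.f (cT 4))
    (s7.f (cT 5)) (s7.f (cT 6)) := by
  unfold RT
  rw [f_asrT, s7.mul, f_cmT]
  simp only [cm, Bool.and_false, sg_false, one_smul]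

theorem s7_RT_ne : (24 : ℤ) • s7.f RT ≠ 0 := by
  rw [RT_val]
  intro h
  have h2 : ((24 : ℤ) • toS [(30, -1152)] : S) = 0 :=
    congrArg (fun t : E7 S => t.2.2.2.2.2.2.2) h
  have h3 := congrFun h2 30
  rw [S_zsmul_apply, S_zero_apply] at h3
  simp only [toS, add_zero] at h3
  rw [S_zsmul_apply] at h3
  simp [dl] at h3

theorem final_ne : (24 : ℤ) • asr
    ((nA (s7.f eT) (s7.f (bT 0)) (s7.f (bT 1)) (s7.f (bT 2)) (s7.f (bT 3)) (s7.f eT) * s7.f eT
      - s7.f eT * nA (s7.f eT) (s7.f (bT 0)) (s7.f (bT 1)) (s7.f (bT 2)) (s7.f (bT 3)) (s7.f eT))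
      * s7.f (cT 4)) (s7.f (cT 5)) (s7.f (cT 6)) ≠ 0 := by
  rw [← s7_NT, ← s7_RT]
  exact s7_RT_ne

end MP4b3fad
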