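import Pool.Agent.Lib.MP_4b3fad_al.Alt

/-!
Super versions of the identities of `Alt.lean`, and their stability under `M ↦ M ⊕ ξ M`.
-/

namespace MP4b3fad

universe u v

open SBase

section
variable {M : Type u} [SBase M]

/-- super commutator of elements of parities `p`, `q` -/
def cm (p q : Bool) (a b : M) : M := a * b - sg (p && q) • (b * a)

/-- super Jordan product of elements of parities `p`, `q` -/
def jd (p q : Bool) (a b : M) : M := a * b + sg (p && q) • (b * a)

theorem H_cm {p q : Bool} {a b : M} (ha : H p a) (hb : H q b) : H (xor p q) (cm p q a b) := by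
  have e1 := H_mul _ _ _ _ ha hb
  have e2 := H_mul _ _ _ _ hb ha
  rw [Bool.xor_comm] at e2
  exact H_sub' e1 (H_sg' e2)

theorem H_jd {p q : Bool} {a b : M} (ha : H p a) (hb : H q b) : H (xor p q) (jd p q a b) := by
  have e1 := H_mul _ _ _ _ ha hb
  have e2 := H_mul _ _ _ _ hb ha
  rw [Bool.xor_comm] at e2
  exact H_add _ _ _ e1 (H_sg' e2)

theorem cm_add_left (p q : Bool) (a b c : M) : cm p q (a + b) c = cm p q a c + cm p q b c := by
  simp only [cm, add_mul, mul_add, smul_add]; abel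
theorem cm_add_right (p q : Bool) (a b c : M) : cm p q a (b + c) = cm p q a b + cm p q a c := by
  simp only [cm, add_mul, mul_add, smul_add]; abel
theorem cm_zsmul_left (p q : Bool) (n : ℤ) (a c : M) : cm p q (n • a) c = n • cm p q a c := by
  simp only [cm, smul_mul_assoc, mul_smul_comm, smul_sub]; rw [smul_comm]
theorem cm_zsmul_right (p q : Bool) (n : ℤ) (a c : M) : cm p q c (n • a) = n • cm p q c a := by
  simp only [cm, smul_mul_assoc, mul_smul_comm, smul_sub]; rw [smul_comm]
theorem cm_neg_left (p q : Bool) (a c : M) : cm p q (-a) c = - cm p q a c := by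
  simp only [cm, neg_mul, mul_neg, smul_neg]; abel
theorem cm_neg_right (p q : Bool) (a c : M) : cm p q c (-a) = - cm p q c a := by
  simp only [cm, neg_mul, mul_neg, smul_neg]; abel
theorem cm_zero_left (p q : Bool) (c : M) : cm p q 0 c = 0 := by simp [cm]
theorem cm_zero_right (p q : Bool) (c : M) : cm p q c 0 = 0 := by simp [cm]
theorem jd_add_left (p q : Bool) (a b c : M) : jd p q (a + b) c = jd p q a c + jd p q b c := by
  simp only [jd, add_mul, mul_add, smul_add]; abel
theorem jd_add_right (p q : Bool) (a b c : M) : jd p q a (b + c) = jd p q a b + jd p q a c := by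
  simp only [jd, add_mul, mul_add, smul_add]; abel
theorem jd_zsmul_left (p q : Bool) (n : ℤ) (a c : M) : jd p q (n • a) c = n • jd p q a c := by
  simp only [jd, smul_mul_assoc, mul_smul_comm, smul_add]; rw [smul_comm]
theorem jd_zsmul_right (p q : Bool) (n : ℤ) (a c : M) : jd p q c (n • a) = n • jd p q c a := by
  simp only [jd, smul_mul_assoc, mul_smul_comm, smul_add]; rw [smul_comm]
theorem jd_neg_left (p q : Bool) (a c : M) : jd p q (-a) c = - jd p q a c := by
  simp only [jd, neg_mul, mul_neg, smul_neg]; abel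
theorem jd_neg_right (p q : Bool) (a c : M) : jd p q c (-a) = - jd p q c a := by
  simp only [jd, neg_mul, mul_neg, smul_neg]; abel
theorem jd_zero_left (p q : Bool) (c : M) : jd p q 0 c = 0 := by simp [jd]
theorem jd_zero_right (p q : Bool) (c : M) : jd p q c 0 = 0 := by simp [jd]

/-- super Jacobian -/
def S3 (p q r : Bool) (a b c : M) : M :=
  cm (xor p q) r (cm p q a b) c + sg (p && xor q r) • cm (xor q r) p (cm q r b c) a
    + sg (r && xor p q) • cm (xor r p) q (cm r p c a) b

/-- the defect of the super Sagle identity -/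
def Sag (p q r s : Bool) (a b c d : M) : M :=
  cm (xor (xor p q) r) s (cm (xor p q) r (cm p q a b) c) d
    + sg (p && xor (xor q r) s) • cm (xor (xor q r) s) p (cm (xor q r) s (cm q r b c) d) a
    + sg (xor p q && xor r s) • cm (xor (xor r s) p) q (cm (xor r s) p (cm r s c d) a) b
    + sg (s && xor (xor p q) r) • cm (xor (xor s p) q) r (cm (xor s p) q (cm s p d a) b) c
    - sg (q && r) • cm (xor p r) (xor q s) (cm p r a c) (cm q s b d)

/-- the defect of the super version of the linearisation of `[x, y] ∘ (x, y, z) = 0` -/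
def Gd (p p' q q' r : Bool) (a a' b b' c : M) : M :=
  jd (xor p q) (xor (xor p' q') r) (cm p q a b) (S3 p' q' r a' b' c)
    + sg (xor (xor (p && q) (p' && q)) (p && p')) •
        jd (xor p' q) (xor (xor p q') r) (cm p' q a' b) (S3 p q' r a b' c)
    + sg (xor (xor (q && p') (q' && p')) (q && q')) •
        jd (xor p q') (xor (xor p' q) r) (cm p q' a b') (S3 p' q r a' b c)
    + sg (xor p q && xor p' q') •
        jd (xor p' q') (xor (xor p q) r) (cm p' q' a' b') (S3 p q r a b c)

/-- The structure used for the computation of nuclear elements. -/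
structure IsSMal (M : Type u) [SBase M] (z w : M) : Prop where
  Hz : H false z
  Hw : H false w
  sagle : ∀ (p q r s : Bool) (a b c d : M), H p a → H q b → H r c → H s d →
    (2 : ℤ) • Sag p q r s a b c d = 0
  G : ∀ (p p' q q' r : Bool) (a a' b b' c : M), H p a → H p' a' → H q b → H q' b' → H r c →
    Gd p p' q q' r a a' b b' c = 0
  der : ∀ (p q : Bool) (a b : M), H p a → H q b →
    J3 (jd p q a b) z w = jd p q a (J3 b z w) + jd p q (J3 a z w) b

theorem cm_fst (p q : Bool) (x y : Ext M) : (cm p q x y).1 = cm p q x.1 y.1 := rfl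
theorem jd_fst (p q : Bool) (x y : Ext M) : (jd p q x y).1 = jd p q x.1 y.1 := rfl

theorem cm_snd {p q : Bool} {x y : Ext M} (hx : H p x) (hy : H q y) :
    (cm p q x y).2 = cm (!p) q x.2 y.1 + sg p • cm p (!q) x.1 y.2 := by
  have e1 := sig_H _ _ hx.1
  have e2 := sig_H _ _ hy.1
  simp only [cm, Ext.snd_sub, Ext.snd_mul, Ext.snd_zsmul, e1, e2]
  cases p <;> cases q <;> simp <;> abel

theorem jd_snd {p q : Bool} {x y : Ext M} (hx : H p x) (hy : H q y) :
    (jd p q x y).2 = jd (!p) q x.2 y.1 + sg p • jd p (!q) x.1 y.2 := by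
  have e1 := sig_H _ _ hx.1
  have e2 := sig_H _ _ hy.1
  simp only [jd, Ext.snd_add, Ext.snd_mul, Ext.snd_zsmul, e1, e2]
  cases p <;> cases q <;> simp <;> abel

theorem H_S3 {p q r : Bool} {a b c : M} (ha : H p a) (hb : H q b) (hc : H r c) :
    H (xor (xor p q) r) (S3 p q r a b c) := by
  have e1 := H_cm (H_cm ha hb) hc
  have e2 := H_cm (H_cm hb hc) ha
  have e3 := H_cm (H_cm hc ha) hb
  rw [show xor (xor q r) p = xor (xor p q) r by cases p <;> cases q <;> cases r <;> rfl] at e2
  rw [show xor (xor r p) q = xor (xor p q) r by cases p <;> cases q <;> cases r <;> rfl] at e3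
  exact H_add _ _ _ (H_add _ _ _ e1 (H_sg' e2)) (H_sg' e3)

theorem S3_fst (p q r : Bool) (x y z : Ext M) : (S3 p q r x y z).1 = S3 p q r x.1 y.1 z.1 := rfl

theorem S3_snd {p q r : Bool} {x y z : Ext M} (hx : H p x) (hy : H q y) (hz : H r z) :
    (S3 p q r x y z).2 = S3 (!p) q r x.2 y.1 z.1 + sg p • S3 p (!q) r x.1 y.2 z.1
      + sg (xor p q) • S3 p q (!r) x.1 y.1 z.2 := by
  simp only [S3, Ext.snd_add, Ext.snd_zsmul, cm_snd (H_cm hx hy) hz, cm_snd hx hy,
    cm_snd (H_cm hy hz) hx, cm_snd hy hz, cm_snd (H_cm hz hx) hy, cm_snd hz hx, cm_fst,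
    cm_add_left, cm_zsmul_left]
  cases p <;> cases q <;> cases r <;> simp <;> abel

theorem S3_add_left (p q r : Bool) (a a' b c : M) :
    S3 p q r (a + a') b c = S3 p q r a b c + S3 p q r a' b c := by
  simp only [S3, cm_add_left, cm_add_right, smul_add]; abel

theorem Sag_snd {p q r s : Bool} {a b c d : Ext M} (ha : H p a) (hb : H q b) (hc : H r c)
    (hd : H s d) :
    (Sag p q r s a b c d).2 = Sag (!p) q r s a.2 b.1 c.1 d.1 + sg p • Sag p (!q) r s a.1 b.2 c.1 d.1
      + sg (xor p q) • Sag p q (!r) s a.1 b.1 c.2 d.1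
      + sg (xor (xor p q) r) • Sag p q r (!s) a.1 b.1 c.1 d.2 := by
  simp only [Sag, Ext.snd_add, Ext.snd_sub, Ext.snd_zsmul, cm_fst, cm_add_left, cm_zsmul_left,
    cm_add_right, cm_zsmul_right,
    cm_snd (H_cm (H_cm ha hb) hc) hd, cm_snd (H_cm ha hb) hc, cm_snd ha hb,
    cm_snd (H_cm (H_cm hb hc) hd) ha, cm_snd (H_cm hb hc) hd, cm_snd hb hc,
    cm_snd (H_cm (H_cm hc hd) ha) hb, cm_snd (H_cm hc hd) ha, cm_snd hc hd,
    cm_snd (H_cm (H_cm hd ha) hb) hc, cm_snd (H_cm hd ha) hb, cm_snd hd ha,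
    cm_snd (H_cm ha hc) (H_cm hb hd), cm_snd ha hc, cm_snd hb hd]
  cases p <;> cases q <;> cases r <;> cases s <;> simp <;> abel

theorem Gd_snd {p p' q q' r : Bool} {a a' b b' c : Ext M} (ha : H p a) (ha' : H p' a')
    (hb : H q b) (hb' : H q' b') (hc : H r c) :
    (Gd p p' q q' r a a' b b' c).2 = Gd (!p) p' q q' r a.2 a'.1 b.1 b'.1 c.1
      + sg (xor p q) • Gd p (!p') q q' r a.1 a'.2 b.1 b'.1 c.1
      + sg p • Gd p p' (!q) q' r a.1 a'.1 b.2 b'.1 c.1
      + sg (xor p (xor p' q)) • Gd p p' q (!q') r a.1 a'.1 b.1 b'.2 c.1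
      + sg (xor (xor p p') (xor q q')) • Gd p p' q q' (!r) a.1 a'.1 b.1 b'.1 c.2 := by
  simp only [Gd, Ext.snd_add, Ext.snd_zsmul, cm_fst, S3_fst,
    jd_add_left, jd_zsmul_left, jd_add_right, jd_zsmul_right,
    jd_snd (H_cm ha hb) (H_S3 ha' hb' hc), cm_snd ha hb, S3_snd ha' hb' hc,
    jd_snd (H_cm ha' hb) (H_S3 ha hb' hc), cm_snd ha' hb, S3_snd ha hb' hc,
    jd_snd (H_cm ha hb') (H_S3 ha' hb hc), cm_snd ha hb', S3_snd ha' hb hc,
    jd_snd (H_cm ha' hb') (H_S3 ha hb hc), cm_snd ha' hb', S3_snd ha hb hc]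
  cases p <;> cases p' <;> cases q <;> cases q' <;> cases r <;> simp <;> abel

theorem J3_io_fst (z w : M) (x : Ext M) : (J3 x (Ext.io z) (Ext.io w)).1 = J3 x.1 z w := rfl

theorem J3_io_snd {z w : M} (hz : H false z) (hw : H false w) (x : Ext M) :
    (J3 x (Ext.io z) (Ext.io w)).2 = J3 x.2 z w := by
  have e1 := sig_H _ _ hz
  have e2 := sig_H _ _ hw
  have e3 := sig_H _ _ (H_mul _ _ _ _ hz hw)
  have e4 := sig_H _ _ (H_mul _ _ _ _ hw hz)
  simp only [sg_false, one_smul, Bool.xor_self] at e1 e2 e3 e4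
  simp [J3, lie, e1, e2, e3, e4]

theorem H_J3 {z w : M} (hz : H false z) (hw : H false w) {p : Bool} {a : M} (ha : H p a) :
    H p (J3 a z w) := by
  have H_lie0 : ∀ {p : Bool} {a b : M}, H p a → H false b → H p (lie a b) := by
    intro p a b ha hb
    have e1 := H_mul _ _ _ _ ha hb
    have e2 := H_mul _ _ _ _ hb ha
    simp only [Bool.xor_false, Bool.false_xor] at e1 e2
    exact H_sub' e1 e2
  have H_lie1 : ∀ {p : Bool} {a b : M}, H p a → H false b → H p (lie b a) := by
    intro p a b ha hb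
    have e1 := H_mul _ _ _ _ ha hb
    have e2 := H_mul _ _ _ _ hb ha
    simp only [Bool.xor_false, Bool.false_xor] at e1 e2
    exact H_sub' e2 e1
  exact H_add _ _ _ (H_add _ _ _ (H_lie0 (H_lie0 ha hz) hw) (H_lie1 ha (H_lie0 hz hw)))
    (H_lie0 (H_lie1 ha hw) hz)

theorem IsSMal.ext {z w : M} (h : IsSMal M z w) : IsSMal (Ext M) (Ext.io z) (Ext.io w) where
  Hz := Ext.H_io h.Hz
  Hw := Ext.H_io h.Hw
  sagle := by
    intro p q r s a b c d ha hb hc hd
    apply Ext.ext
    · exact h.sagle p q r s _ _ _ _ ha.1 hb.1 hc.1 hd.1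
    · rw [Ext.snd_zsmul, Sag_snd ha hb hc hd, smul_add, smul_add, smul_add, smul_comm (2 : ℤ),
        smul_comm (2 : ℤ) (sg (xor p q)), smul_comm (2 : ℤ) (sg (xor (xor p q) r)),
        h.sagle _ _ _ _ _ _ _ _ ha.2 hb.1 hc.1 hd.1, h.sagle _ _ _ _ _ _ _ _ ha.1 hb.2 hc.1 hd.1,
        h.sagle _ _ _ _ _ _ _ _ ha.1 hb.1 hc.2 hd.1, h.sagle _ _ _ _ _ _ _ _ ha.1 hb.1 hc.1 hd.2]
      simp
  G := by
    intro p p' q q' r a a' b b' c ha ha' hb hb' hc
    apply Ext.ext
    · exact h.G _ _ _ _ _ _ _ _ _ _ ha.1 ha'.1 hb.1 hb'.1 hc.1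
    · rw [Gd_snd ha ha' hb hb' hc, h.G _ _ _ _ _ _ _ _ _ _ ha.2 ha'.1 hb.1 hb'.1 hc.1,
        h.G _ _ _ _ _ _ _ _ _ _ ha.1 ha'.2 hb.1 hb'.1 hc.1,
        h.G _ _ _ _ _ _ _ _ _ _ ha.1 ha'.1 hb.2 hb'.1 hc.1,
        h.G _ _ _ _ _ _ _ _ _ _ ha.1 ha'.1 hb.1 hb'.2 hc.1,
        h.G _ _ _ _ _ _ _ _ _ _ ha.1 ha'.1 hb.1 hb'.1 hc.2]
      simp
  der := by
    intro p q a b ha hb
    have hJa : H p (J3 a (Ext.io z) (Ext.io w)) := H_J3 (Ext.H_io h.Hz) (Ext.H_io h.Hw) ha
    have hJb : H q (J3 b (Ext.io z) (Ext.io w)) := H_J3 (Ext.H_io h.Hz) (Ext.H_io h.Hw) hb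
    have J3_add : ∀ x y : M, J3 (x + y) z w = J3 x z w + J3 y z w := by
      intro x y; simp only [J3, lie, add_mul, mul_add, sub_mul, mul_sub]; abel
    have J3_sg : ∀ (x : M) (n : ℤ), J3 (n • x) z w = n • J3 x z w := by
      intro x n
      simp only [J3, lie, smul_mul_assoc, mul_smul_comm, smul_add, smul_sub, sub_mul, mul_sub]
    apply Ext.ext
    · exact h.der _ _ _ _ ha.1 hb.1
    · rw [J3_io_snd h.Hz h.Hw, jd_snd ha hb, J3_add, J3_sg, h.der _ _ _ _ ha.2 hb.1,
        h.der _ _ _ _ ha.1 hb.2, Ext.snd_add, jd_snd ha hJb, jd_snd hJa hb,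
        J3_io_snd h.Hz h.Hw, J3_io_snd h.Hz h.Hw, J3_io_fst, J3_io_fst, smul_add]
      abel

end

/-- A ring regarded as a super ring all of whose elements are even. -/
def Triv (A : Type u) : Type u := A

instance (A : Type u) [NonUnitalNonAssocRing A] : NonUnitalNonAssocRing (Triv A) :=
  inferInstanceAs (NonUnitalNonAssocRing A)

instance Triv.sbase (A : Type u) [NonUnitalNonAssocRing A] : SBase (Triv A) :=
  { (inferInstance : NonUnitalNonAssocRing (Triv A)) with
    sig := AddMonoidHom.id _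
    H := fun p x => p = true → x = 0
    H_zero := fun _ _ => rfl
    H_add := fun p x y hx hy hp => by rw [hx hp, hy hp, add_zero]
    H_neg := fun p x hx hp => by rw [hx hp, neg_zero]
    H_mul := by
      intro p q x y hx hy hpq
      cases p
      · cases q
        · simp at hpq
        · rw [hy rfl, mul_zero]
      · rw [hx rfl, zero_mul]
    sig_H := by
      intro p x hx
      cases p
      · simp
      · rw [hx rfl]; simp }

theorem Triv.H_false {A : Type u} [NonUnitalNonAssocRing A] (x : Triv A) : H false x := by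
  intro h; cases h

theorem Triv.H_true {A : Type u} [NonUnitalNonAssocRing A] {x : Triv A} (h : H true x) : x = 0 :=
  h rfl

theorem IsAlt.isSMal {A : Type u} [NonUnitalNonAssocRing A] (h : IsAlt A) (z w : Triv A) :
    IsSMal (Triv A) z w where
  Hz := Triv.H_false z
  Hw := Triv.H_false w
  sagle := by
    have h0 : ∀ p q r s (a b c d : Triv A), (p = true → a = 0) → (q = true → b = 0) →
        (r = true → c = 0) → (s = true → d = 0) → (2 : ℤ) • Sag p q r s a b c d = 0 := by
      intro p q r s a b c d ha hb hc hd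
      cases p
      swap
      · rw [ha rfl]; simp [Sag, cm]
      cases q
      swap
      · rw [hb rfl]; simp [Sag, cm]
      cases r
      swap
      · rw [hc rfl]; simp [Sag, cm]
      cases s
      swap
      · rw [hd rfl]; simp [Sag, cm]
      have h' : IsAlt (Triv A) := h
      have e := h'.sagle a b c d
      simpa [Sag, cm, lie] using e
    exact h0
  G := by
    have h0 : ∀ p p' q q' r (a a' b b' c : Triv A), (p = true → a = 0) → (p' = true → a' = 0) →
        (q = true → b = 0) → (q' = true → b' = 0) → (r = true → c = 0) →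
        Gd p p' q q' r a a' b b' c = 0 := by
      intro p p' q q' r a a' b b' c ha ha' hb hb' hc
      cases p
      swap
      · rw [ha rfl]; simp [Gd, S3, cm, jd]
      cases p'
      swap
      · rw [ha' rfl]; simp [Gd, S3, cm, jd]
      cases q
      swap
      · rw [hb rfl]; simp [Gd, S3, cm, jd]
      cases q'
      swap
      · rw [hb' rfl]; simp [Gd, S3, cm, jd]
      cases r
      swap
      · rw [hc rfl]; simp [Gd, S3, cm, jd]
      have h' : IsAlt (Triv A) := h
      have e := h'.G a a' b b' c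
      simpa [Gd, S3, J3, jor, cm, jd, lie] using e
    exact h0
  der := by
    have h0 : ∀ p q (a b : Triv A), (p = true → a = 0) → (q = true → b = 0) →
        J3 (jd p q a b) z w = jd p q a (J3 b z w) + jd p q (J3 a z w) b := by
      intro p q a b ha hb
      cases p
      swap
      · rw [ha rfl]; simp [jd, J3, lie]
      cases q
      swap
      · rw [hb rfl]; simp [jd, J3, lie]
      have h' : IsAlt (Triv A) := h
      have e := h'.J3der a b z w
      simpa [jor, jd] using e
    exact h0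

end MP4b3fad
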