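import Pool.Agent.Lib.MP_4b3fad_al.Sound

/-!
The nuclear element `24 • nA x y₁ … y₅` of an arbitrary alternative ring.
-/

namespace MP4b3fad

universe u v

open SBase Ext

section
variable {M : Type u} [SBase M]

/-- `M[ξ₁,…,ξ₅]` -/
abbrev E5 (M : Type u) : Type u := Ext (Ext (Ext (Ext (Ext M))))

def io5 (x : M) : E5 M := io (io (io (io (io x))))

/-- `ξ₁ y₁ + ⋯ + ξ₅ y₅` -/
def Y5 (y₁ y₂ y₃ y₄ y₅ : M) : E5 M :=
  mk (mk (mk (mk (mk 0 y₁) (io y₂)) (io (io y₃))) (io (io (io y₄)))) (io (io (io (io y₅))))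

def top5 (x : E5 M) : M := x.2.2.2.2.2

/-- the coefficient of `ξ₁⋯ξ₅` in `nn (x, ξ₁ y₁ + ⋯ + ξ₅ y₅)` -/
def nA (x y₁ y₂ y₃ y₄ y₅ : M) : M := top5 (nn (io5 x) (Y5 y₁ y₂ y₃ y₄ y₅))

theorem H_io5 {p : Bool} {x : M} (h : H p x) : H p (io5 x) :=
  H_io (H_io (H_io (H_io (H_io h))))

theorem H_Y5 {y₁ y₂ y₃ y₄ y₅ : M} (h₁ : H false y₁) (h₂ : H false y₂) (h₃ : H false y₃)
    (h₄ : H false y₄) (h₅ : H false y₅) : H true (Y5 y₁ y₂ y₃ y₄ y₅) :=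
  ⟨⟨⟨⟨⟨H_zero _, h₁⟩, H_io h₂⟩, H_io (H_io h₃)⟩, H_io (H_io (H_io h₄))⟩,
    H_io (H_io (H_io (H_io h₅)))⟩

theorem step_J3 {z w : M} (hz : H false z) (hw : H false w) (N : Ext M) (c : ℤ)
    (h : c • J3 N (io z) (io w) = 0) : c • J3 N.2 z w = 0 := by
  have e : (c • J3 N (io z) (io w)).2 = 0 := by rw [h]; rfl
  rw [snd_zsmul, J3_io_snd hz hw] at e
  exact e

theorem four_J3_nA {z w : M} (h : IsSMal M z w) {x y₁ y₂ y₃ y₄ y₅ : M} (hx : H false x)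
    (h₁ : H false y₁) (h₂ : H false y₂) (h₃ : H false y₃) (h₄ : H false y₄) (h₅ : H false y₅) :
    (4 : ℤ) • J3 (nA x y₁ y₂ y₃ y₄ y₅) z w = 0 := by
  have k1 := h.ext
  have k2 := k1.ext
  have k3 := k2.ext
  have k4 := k3.ext
  have k5 := k4.ext
  have e := four_J3_nn k5 (H_io5 hx) (H_Y5 h₁ h₂ h₃ h₄ h₅)
  unfold nA top5
  generalize nn (io5 x) (Y5 y₁ y₂ y₃ y₄ y₅) = N at e ⊢
  have e4 := step_J3 k4.Hz k4.Hw _ _ e
  have e3 := step_J3 k3.Hz k3.Hw _ _ e4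
  have e2 := step_J3 k2.Hz k2.Hw _ _ e3
  have e1 := step_J3 k1.Hz k1.Hw _ _ e2
  exact step_J3 h.Hz h.Hw _ _ e1

end

section
variable {A : Type u} [NonUnitalNonAssocRing A]

/-- `nA` for an ordinary ring -/
def nR (x y₁ y₂ y₃ y₄ y₅ : A) : A := nA (M := Triv A) x y₁ y₂ y₃ y₄ y₅

theorem asr_zsmul_left (n : ℤ) (x y z : A) : asr (n • x) y z = n • asr x y z := by
  simp only [asr, smul_mul_assoc, smul_sub]

theorem IsAlt.nuclear (h : IsAlt A) (x y₁ y₂ y₃ y₄ y₅ z w : A) :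
    asr ((24 : ℤ) • nR x y₁ y₂ y₃ y₄ y₅) z w = 0 := by
  have e := four_J3_nA (h.isSMal z w) (Triv.H_false x) (Triv.H_false y₁) (Triv.H_false y₂)
    (Triv.H_false y₃) (Triv.H_false y₄) (Triv.H_false y₅)
  have e' : (4 : ℤ) • J3 (nR x y₁ y₂ y₃ y₄ y₅) z w = 0 := e
  rw [h.J3_eq, smul_smul] at e'
  rw [asr_zsmul_left]
  exact e'

end

end MP4b3fad
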