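import Pool.Agent.Lib.MP_4b3fad_al.Mal

/-!
A reflective proof that the Jordan element `nn` of degree six satisfies `4 J(nn, z, w) = 0`.
-/

namespace MP4b3fad

universe u

open SBase

/-- Nonassociative words in four letters; `b l r` stands for a super commutator. -/
inductive Tr where
  | x | y | z | w
  | b (l r : Tr)

namespace Tr

/-- parity: `y` is the only odd letter -/
def par : Tr → Bool
  | x => false
  | y => true
  | z => false
  | w => false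
  | b l r => xor l.par r.par

def code : Tr → Nat
  | x => 0
  | y => 1
  | z => 2
  | w => 3
  | b _ _ => 4

def cmp : Tr → Tr → Ordering
  | b l r, b l' r' =>
    match cmp l l' with
    | .eq => cmp r r'
    | .lt => .lt
    | .gt => .gt
  | s, t => if s.code < t.code then .lt else if t.code < s.code then .gt else .eq

/-- put the bracket of two normal forms in normal form -/
def comb (p q : ℤ × Tr) : ℤ × Tr :=
  match cmp p.2 q.2 with
  | .eq => if p.2.par then (p.1 * q.1, b p.2 q.2) else (0, b p.2 q.2)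
  | .lt => (- (p.1 * q.1) * sg (p.2.par && q.2.par), b q.2 p.2)
  | .gt => (p.1 * q.1, b p.2 q.2)

/-- normal form with coefficient -/
def norm : Tr → ℤ × Tr
  | b l r => comb (norm l) (norm r)
  | t => (1, t)

theorem eq_of_cmp : ∀ s t : Tr, cmp s t = .eq → s = t := by
  intro s
  induction s with
  | x => intro t; cases t <;> simp [cmp, code]
  | y => intro t; cases t <;> simp [cmp, code]
  | z => intro t; cases t <;> simp [cmp, code]
  | w => intro t; cases t <;> simp [cmp, code]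
  | b l r ihl ihr =>
    intro t
    cases t with
    | x => simp [cmp, code]
    | y => simp [cmp, code]
    | z => simp [cmp, code]
    | w => simp [cmp, code]
    | b l' r' =>
      intro h
      unfold cmp at h
      cases hl : cmp l l' with
      | lt => rw [hl] at h; simp at h
      | gt => rw [hl] at h; simp at h
      | eq =>
        rw [hl] at h
        rw [ihl _ hl, ihr _ h]

theorem par_comb (p q : ℤ × Tr) : (comb p q).2.par = xor p.2.par q.2.par := by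
  unfold comb
  cases cmp p.2 q.2 with
  | lt => simp only [par, Bool.xor_comm]
  | gt => simp only [par]
  | eq =>
    simp only
    split <;> simp only [par]

theorem par_norm (t : Tr) : (norm t).2.par = t.par := by
  induction t with
  | x => rfl
  | y => rfl
  | z => rfl
  | w => rfl
  | b l r ihl ihr =>
    change (comb (norm l) (norm r)).2.par = _
    rw [par_comb, ihl, ihr]
    rfl

section
variable {M : Type u} [SBase M] (X Y Z W : M)

/-- evaluation -/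
def ev : Tr → M
  | x => X
  | y => Y
  | z => Z
  | w => W
  | b l r => cm l.par r.par l.ev r.ev

theorem ev_comb (p q : ℤ × Tr) :
    (comb p q).1 • ev X Y Z W (comb p q).2
      = (p.1 * q.1) • cm p.2.par q.2.par (ev X Y Z W p.2) (ev X Y Z W q.2) := by
  unfold comb
  cases hc : cmp p.2 q.2 with
  | lt =>
    simp only [ev]
    have e2 : cm p.2.par q.2.par (ev X Y Z W p.2) (ev X Y Z W q.2)
        = (- sg (p.2.par && q.2.par)) •
          cm q.2.par p.2.par (ev X Y Z W q.2) (ev X Y Z W p.2) := by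
      generalize p.2.par = p
      generalize q.2.par = q
      unfold cm
      cases p <;> cases q <;> simp <;> abel
    rw [e2, smul_smul]
    congr 1
    ring
  | gt => simp only [ev]
  | eq =>
    have e3 := eq_of_cmp _ _ hc
    simp only
    split
    · simp only [ev]
    · rename_i hp
      simp only [Bool.not_eq_true] at hp
      rw [← e3, hp]
      simp [cm]

theorem ev_norm (t : Tr) : ev X Y Z W t = (norm t).1 • ev X Y Z W (norm t).2 := by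
  induction t with
  | x => simp [norm]
  | y => simp [norm]
  | z => simp [norm]
  | w => simp [norm]
  | b l r ihl ihr =>
    change _ = (comb (norm l) (norm r)).1 • ev X Y Z W (comb (norm l) (norm r)).2
    rw [ev_comb, ev, ihl, ihr, cm_zsmul_left, cm_zsmul_right, smul_smul, par_norm, par_norm]

variable {X Y Z W}
theorem H_ev (hX : H false X) (hY : H true Y) (hZ : H false Z) (hW : H false W) (t : Tr) :
    H t.par (ev X Y Z W t) := by
  induction t with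
  | x => exact hX
  | y => exact hY
  | z => exact hZ
  | w => exact hW
  | b l r ihl ihr => exact H_cm ihl ihr

end

end Tr

open Tr

/-- insert a monomial `c • m ∘ m'` in a list of such -/
def ins (c : ℤ) (m m' : Tr) : List (ℤ × Tr × Tr) → List (ℤ × Tr × Tr)
  | [] => [(c, m, m')]
  | (d, k, k') :: L =>
    match cmp k m with
    | .eq => match cmp k' m' with
      | .eq => (d + c, k, k') :: L
      | .lt => (d, k, k') :: ins c m m' L
      | .gt => (d, k, k') :: ins c m m' L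
    | .lt => (d, k, k') :: ins c m m' L
    | .gt => (d, k, k') :: ins c m m' L

/-- normalise a monomial `c • m ∘ m'` and insert it -/
def addJ (c : ℤ) (m m' : Tr) (L : List (ℤ × Tr × Tr)) : List (ℤ × Tr × Tr) :=
  let p := norm m
  let q := norm m'
  let d := c * (p.1 * q.1)
  if d = 0 then L else
  match cmp p.2 q.2 with
  | .eq => if p.2.par then L else ins d p.2 q.2 L
  | .lt => ins (d * sg (p.2.par && q.2.par)) q.2 p.2 L
  | .gt => ins d p.2 q.2 L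

def collect : List (ℤ × Tr × Tr) → List (ℤ × Tr × Tr)
  | [] => []
  | (c, m, m') :: L => addJ c m m' (collect L)

def allZero : List (ℤ × Tr × Tr) → Bool
  | [] => true
  | (c, _, _) :: L => decide (c = 0) && allZero L

/-- the five monomials of the Sagle relation -/
def sagL (a b' c d : Tr) : List (ℤ × Tr) :=
  let p := a.par
  let q := b'.par
  let r := c.par
  let s := d.par
  [(1, b (b (b a b') c) d),
   (sg (p && xor (xor q r) s), b (b (b b' c) d) a),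
   (sg (xor p q && xor r s), b (b (b c d) a) b'),
   (sg (s && xor (xor p q) r), b (b (b d a) b') c),
   (- sg (q && r), b (b a c) (b b' d))]

def jacL (a b' c : Tr) : List (ℤ × Tr) :=
  let p := a.par
  let q := b'.par
  let r := c.par
  [(1, b (b a b') c), (sg (p && xor q r), b (b b' c) a), (sg (r && xor p q), b (b c a) b')]

/-- pair every word of a list with `m` on the right -/
def pairR (c : ℤ) (L : List (ℤ × Tr)) (m : Tr) : List (ℤ × Tr × Tr) :=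
  L.map fun t => (c * t.1, t.2, m)

/-- pair every word of a list with `m` on the left -/
def pairL (c : ℤ) (m : Tr) (L : List (ℤ × Tr)) : List (ℤ × Tr × Tr) :=
  L.map fun t => (c * t.1, m, t.2)

def wrap (L : List (ℤ × Tr)) (ctx : List Tr) : List (ℤ × Tr) :=
  ctx.foldl (fun L k => L.map fun t => (t.1, b t.2 k)) L

def gL (c : ℤ) (a a' b' b'' r : Tr) : List (ℤ × Tr × Tr) :=
  let p := a.par
  let p' := a'.par
  let q := b'.par
  let q' := b''.par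
  pairL c (b a b') (jacL a' b'' r) ++
  pairL (c * sg (xor (xor (p && q) (p' && q)) (p && p'))) (b a' b') (jacL a b'' r) ++
  pairL (c * sg (xor (xor (q && p') (q' && p')) (q && q'))) (b a b'') (jacL a' b' r) ++
  pairL (c * sg (xor p q && xor p' q')) (b a' b'') (jacL a b' r)

structure SEnt where
  c : ℤ
  a1 : Tr
  a2 : Tr
  a3 : Tr
  a4 : Tr
  ctx : List Tr
  m : Tr

structure GEnt where
  c : ℤ
  a1 : Tr
  a2 : Tr
  b1 : Tr
  b2 : Tr
  r : Tr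

def SEnt.exp (e : SEnt) : List (ℤ × Tr × Tr) :=
  pairR (-e.c) (wrap (sagL e.a1 e.a2 e.a3 e.a4) e.ctx) e.m

def GEnt.exp (e : GEnt) : List (ℤ × Tr × Tr) :=
  gL (-e.c) e.a1 e.a2 e.b1 e.b2 e.r

def certS : List SEnt := [
  ⟨-4, .w, .z, .y, .y, [], (.b (.b .y .x) (.b .y .y))⟩,
  ⟨4, .w, .y, .y, .z, [], (.b (.b .y .x) (.b .y .y))⟩,
  ⟨1, .w, .y, .y, .y, [], (.b (.b (.b .y .y) .x) .z)⟩,
  ⟨-2, .w, .y, .y, .y, [], (.b (.b (.b .y .x) .y) .z)⟩,
  ⟨-1, .z, .y, .y, .y, [], (.b (.b (.b .y .y) .x) .w)⟩,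
  ⟨2, .z, .y, .y, .y, [], (.b (.b (.b .y .x) .y) .w)⟩,
  ⟨1, .w, .y, .y, .x, [], (.b (.b (.b .y .y) .y) .z)⟩,
  ⟨-1, .w, .y, .x, .y, [], (.b (.b (.b .y .y) .y) .z)⟩,
  ⟨1, .w, .x, .y, .y, [], (.b (.b (.b .y .y) .y) .z)⟩,
  ⟨-1, .z, .y, .y, .x, [], (.b (.b (.b .y .y) .y) .w)⟩,
  ⟨1, .z, .y, .x, .y, [], (.b (.b (.b .y .y) .y) .w)⟩,
  ⟨-1, .z, .x, .y, .y, [], (.b (.b (.b .y .y) .y) .w)⟩,
  ⟨-2, .y, .y, .y, .x, [], (.b (.b (.b .y .y) .w) .z)⟩,
  ⟨2, .y, .y, .y, .x, [], (.b (.b .y .y) (.b .w .z))⟩,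
  ⟨2, .y, .y, .y, .x, [], (.b (.b (.b .y .y) .z) .w)⟩,
  ⟨-3, .w, .z, .y, (.b .y .y), [], (.b (.b .y .y) .x)⟩,
  ⟨2, .w, .z, .y, (.b .y .y), [], (.b (.b .y .x) .y)⟩,
  ⟨3, .w, .z, (.b .y .y), .y, [], (.b (.b .y .y) .x)⟩,
  ⟨-2, .w, .z, (.b .y .y), .y, [], (.b (.b .y .x) .y)⟩,
  ⟨3, .w, .y, (.b .y .y), .z, [], (.b (.b .y .y) .x)⟩,
  ⟨-2, .w, .y, (.b .y .y), .z, [], (.b (.b .y .x) .y)⟩,
  ⟨-3, .w, (.b .y .y), .y, .z, [], (.b (.b .y .y) .x)⟩,
  ⟨2, .w, (.b .y .y), .y, .z, [], (.b (.b .y .x) .y)⟩,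
  ⟨-1, .y, .y, .y, (.b .y .y), [], (.b (.b .w .x) .z)⟩,
  ⟨1, .y, .y, .y, (.b .y .y), [], (.b (.b .w .z) .x)⟩,
  ⟨1, .y, .y, .y, (.b .y .y), [], (.b (.b .z .x) .w)⟩,
  ⟨-2, .w, .z, .y, (.b .y .x), [], (.b (.b .y .y) .y)⟩,
  ⟨-3, .w, .z, .x, (.b .y .y), [], (.b (.b .y .y) .y)⟩,
  ⟨3, .w, .z, (.b .y .y), .x, [], (.b (.b .y .y) .y)⟩,
  ⟨-2, .w, .z, (.b .y .x), .y, [], (.b (.b .y .y) .y)⟩,
  ⟨2, .w, .y, (.b .y .x), .z, [], (.b (.b .y .y) .y)⟩,
  ⟨3, .w, .x, (.b .y .y), .z, [], (.b (.b .y .y) .y)⟩,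
  ⟨-3, .w, (.b .y .y), .x, .z, [], (.b (.b .y .y) .y)⟩,
  ⟨2, .w, (.b .y .x), .y, .z, [], (.b (.b .y .y) .y)⟩,
  ⟨-1, .y, .y, .y, (.b .y .x), [], (.b (.b .w .z) .y)⟩,
  ⟨1, .y, .y, .y, (.b .y .x), [], (.b (.b .w .y) .z)⟩,
  ⟨-1, .y, .y, .y, (.b .y .x), [], (.b (.b .z .y) .w)⟩,
  ⟨1, .y, .y, .x, (.b .y .y), [], (.b (.b .w .z) .y)⟩,
  ⟨-1, .y, .y, .x, (.b .y .y), [], (.b (.b .w .y) .z)⟩,
  ⟨1, .y, .y, .x, (.b .y .y), [], (.b (.b .z .y) .w)⟩,
  ⟨-1, .y, .x, .y, (.b .y .y), [], (.b (.b .w .z) .y)⟩,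
  ⟨1, .y, .x, .y, (.b .y .y), [], (.b (.b .w .y) .z)⟩,
  ⟨-1, .y, .x, .y, (.b .y .y), [], (.b (.b .z .y) .w)⟩,
  ⟨1, .y, .y, .y, .x, [.y], (.b (.b .w .z) .y)⟩,
  ⟨-1, .y, .y, .y, .x, [.y], (.b (.b .w .y) .z)⟩,
  ⟨1, .y, .y, .y, .x, [.y], (.b (.b .z .y) .w)⟩,
  ⟨2, .w, .z, (.b .y .y), (.b .y .x), [], (.b .y .y)⟩,
  ⟨-2, .w, .z, (.b .y .x), (.b .y .y), [], (.b .y .y)⟩,
  ⟨-2, .w, (.b .y .y), (.b .y .x), .z, [], (.b .y .y)⟩,
  ⟨2, .w, (.b .y .x), (.b .y .y), .z, [], (.b .y .y)⟩,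
  ⟨-2, .y, .y, .y, .x, [(.b .y .y)], (.b .w .z)⟩,
  ⟨1, .y, .y, .y, (.b .y .y), [.x], (.b .w .z)⟩,
  ⟨-1, .y, .y, .y, (.b .y .x), [.y], (.b .w .z)⟩,
  ⟨1, .y, .y, .x, (.b .y .y), [.y], (.b .w .z)⟩,
  ⟨-1, .y, .x, .y, (.b .y .y), [.y], (.b .w .z)⟩,
  ⟨1, .y, .y, .y, .x, [.y, .y], (.b .w .z)⟩]

def certG : List GEnt := [
  ⟨2, .w, (.b .y .y), .z, (.b .y .x), (.b .y .y)⟩,
  ⟨3, .w, (.b .y .y), .y, (.b .z .x), (.b .y .y)⟩,
  ⟨3, .w, (.b .y .y), .x, (.b .z .y), (.b .y .y)⟩,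
  ⟨-2, .w, (.b .y .y), (.b .y .y), (.b .y .x), .z⟩,
  ⟨-2, .w, (.b (.b .y .y) .y), .z, (.b .y .y), .x⟩,
  ⟨-2, .w, (.b (.b .y .y) .x), .z, (.b .y .y), .y⟩,
  ⟨-2, .w, (.b (.b .y .x) (.b .y .y)), .y, .z, .y⟩,
  ⟨-3, .z, (.b .y .y), .y, (.b .w .x), (.b .y .y)⟩,
  ⟨-3, .z, (.b .y .y), .x, (.b .w .y), (.b .y .y)⟩,
  ⟨2, .y, .w, .y, (.b (.b .y .x) (.b .y .y)), .z⟩,
  ⟨2, .y, .w, (.b .y .y), (.b (.b .y .y) .x), .z⟩,
  ⟨-4, .y, (.b .y .y), .y, (.b .y .x), (.b .w .z)⟩,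
  ⟨-2, .y, (.b .y .y), .y, (.b (.b .y .x) .w), .z⟩,
  ⟨2, .y, (.b .y .y), .y, (.b (.b .y .x) .z), .w⟩,
  ⟨6, .y, (.b .y .y), .x, (.b .y .y), (.b .w .z)⟩,
  ⟨2, .y, (.b .y .y), (.b .w .y), (.b .y .x), .z⟩,
  ⟨-2, .y, (.b .y .y), (.b .z .y), (.b .y .x), .w⟩,
  ⟨2, .y, (.b .y .x), .y, (.b (.b .y .y) .w), .z⟩,
  ⟨-2, .y, (.b .y .x), .y, (.b (.b .y .y) .z), .w⟩,
  ⟨2, .y, (.b .y .x), (.b .z .y), (.b .y .y), .w⟩,
  ⟨2, .y, (.b .y .x), (.b .y .y), (.b .w .y), .z⟩,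
  ⟨2, .x, .w, (.b .y .y), (.b (.b .y .y) .y), .z⟩,
  ⟨-3, .x, .y, (.b .y .y), (.b (.b .y .y) .w), .z⟩,
  ⟨3, .x, .y, (.b .y .y), (.b (.b .y .y) .z), .w⟩]

/-- The nuclear element, as a list of monomials `c • m ∘ m'`. -/
def nL : List (ℤ × Tr × Tr) :=
  [(-4, .b (.b .y .y) .x, .b (.b .y .y) .y),
   (2, .b (.b .y .x) .y, .b (.b .y .y) .y),
   (3, .b (.b .y .x) (.b .y .y), .b .y .y)]

def targetL : List (ℤ × Tr × Tr) :=
  nL.flatMap fun t =>
    pairL (2 * t.1) t.2.1 (jacL t.2.2 .z .w) ++ pairR (2 * t.1) (jacL t.2.1 .z .w) t.2.2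

def total : List (ℤ × Tr × Tr) :=
  targetL ++ (certS.flatMap SEnt.exp ++ certG.flatMap GEnt.exp)

set_option maxRecDepth 100000 in
theorem total_check : allZero (collect total) = true := by
  decide +kernel

end MP4b3fad
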