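import Pool.Agent.Lib.MP_4b3fad_al.Tower

/-!
An alternative superring `S` of rank 33 over `ℤ`, given by its multiplication table.
-/

namespace MP4b3fad

open SBase

/-- Row `i` lists the nonzero products `eᵢ eⱼ = ∑ c e_k` as `(j, [(k, c), …])`. -/
def tabRows : List (List (ℕ × List (ℕ × ℤ))) := [
  [(0, [(2, 1)]), (1, [(4, 1)]), (2, [(7, 1)]), (3, [(9, 1)]), (5, [(10, -1), (11, 1)]), (9, [(14, 1)]), (10, [(18, 1)]), (11, [(17, -1), (18, 1)]), (12, [(19, 1)]), (15, [(21, 1)]), (16, [(22, 1)]), (19, [(23, -1)]), (20, [(26, 1)]), (23, [(28, 1)]), (24, [(28, -1)]), (25, [(29, 1)]), (29, [(30, -1)]), (31, [(0, 1)])],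
  [(0, [(3, 1)]), (1, [(5, 1)]), (2, [(8, 1)]), (4, [(11, 1)]), (5, [(12, 1)]), (7, [(14, 1)]), (8, [(15, 1)]), (9, [(16, 1)]), (10, [(19, 1)]), (11, [(19, 1)]), (13, [(20, 1)]), (14, [(21, 1)]), (17, [(23, 1)]), (18, [(23, -1), (24, 1)]), (19, [(25, 1)]), (21, [(27, 1)]), (24, [(29, 1)]), (28, [(30, 1)]), (32, [(1, 1)])],
  [(0, [(6, 1)]), (1, [(8, -1)]), (4, [(14, 1)]), (5, [(15, 1)]), (10, [(21, -1)]), (11, [(21, -1)]), (13, [(23, 1)]), (19, [(27, 1)]), (26, [(30, 1)]), (32, [(2, 1)])],
  [(1, [(10, 1)]), (2, [(14, 1)]), (3, [(16, 1)]), (10, [(24, 1)]), (11, [(23, -1), (24, 1)]), (12, [(25, 1)]), (15, [(27, 1)]), (23, [(30, 1)]), (31, [(3, 1)])],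
  [(0, [(8, -1), (9, 1)]), (4, [(17, -1), (18, 1)]), (5, [(19, 1)]), (8, [(21, 1)]), (9, [(21, -1), (22, 1)]), (13, [(26, 1)]), (17, [(28, 1)]), (18, [(28, -2)]), (19, [(29, 1)]), (32, [(4, 1)])],
  [(0, [(10, 1), (11, -1)]), (1, [(13, 1)]), (2, [(17, -1)]), (3, [(19, 1)]), (6, [(21, -1)]), (9, [(23, 1)]), (10, [(26, 1)]), (11, [(26, 1)]), (14, [(28, -1)]), (16, [(29, 1)]), (22, [(30, 1)]), (31, [(5, 1)])],
  [(1, [(14, 1)]), (12, [(27, 1)]), (20, [(30, 1)]), (31, [(6, 1)])],
  [(5, [(21, 1)]), (13, [(28, 1)]), (32, [(7, 1)])],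
  [(1, [(17, 1)]), (3, [(21, 1)]), (10, [(28, 1)]), (11, [(28, 1)]), (31, [(8, 1)])],
  [(0, [(14, 1)]), (1, [(18, 1)]), (3, [(22, 1)]), (5, [(23, -1)]), (10, [(28, -1)]), (11, [(28, -2)]), (12, [(29, 1)]), (19, [(30, -1)]), (31, [(9, 1)])],
  [(0, [(16, 1)]), (1, [(19, 1)]), (2, [(21, 1)]), (4, [(23, -1), (24, 1)]), (5, [(25, 1)]), (8, [(27, 1)]), (10, [(29, 1)]), (11, [(29, 1)]), (17, [(30, 1)]), (18, [(30, -1)]), (32, [(10, 1)])],
  [(0, [(15, -1), (16, 1)]), (1, [(19, 1)]), (2, [(21, 1)]), (4, [(23, -2), (24, 1)]), (5, [(25, 1)]), (8, [(27, 1)]), (9, [(27, -1)]), (10, [(29, 1)]), (11, [(29, 1)]), (17, [(30, 1)]), (18, [(30, -2)]), (32, [(11, 1)])],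
  [(1, [(20, 1)]), (2, [(23, -1)]), (3, [(25, 1)]), (6, [(27, -1)]), (14, [(30, -1)]), (31, [(12, 1)])],
  [(0, [(19, 1)]), (4, [(26, 1)]), (7, [(28, -1)]), (9, [(29, 1)]), (32, [(13, 1)])],
  [(1, [(21, -1)]), (5, [(27, 1)]), (13, [(30, 1)]), (32, [(14, 1)])],
  [(1, [(23, 1)]), (3, [(27, 1)]), (10, [(30, 1)]), (11, [(30, 1)]), (31, [(15, 1)])],
  [(1, [(24, 1)]), (11, [(30, -1)]), (31, [(16, 1)])],
  [(0, [(21, 1)]), (4, [(28, 1)]), (32, [(17, 1)])],
  [(0, [(21, -1), (22, 1)]), (4, [(28, -2)]), (5, [(29, 1)]), (32, [(18, 1)])],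
  [(0, [(23, 1)]), (1, [(26, 1)]), (2, [(28, -1)]), (3, [(29, 1)]), (9, [(30, 1)]), (31, [(19, 1)])],
  [(0, [(25, 1)]), (7, [(30, -1)]), (32, [(20, 1)])],
  [(1, [(28, 1)]), (31, [(21, 1)])],
  [(1, [(28, -1)]), (5, [(30, -1)]), (31, [(22, 1)])],
  [(0, [(27, 1)]), (4, [(30, 1)]), (32, [(23, 1)])],
  [(1, [(29, 1)]), (4, [(30, -1)]), (32, [(24, 1)])],
  [(2, [(30, -1)]), (31, [(25, 1)])],
  [(0, [(29, 1)]), (32, [(26, 1)])],
  [(1, [(30, 1)]), (31, [(27, 1)])],
  [(32, [(28, 1)])],
  [(0, [(30, 1)]), (31, [(29, 1)])],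
  [(32, [(30, 1)])],
  [(1, [(1, 1)]), (2, [(2, 1)]), (3, [(3, 1)]), (6, [(6, 1)]), (10, [(10, 1)]), (11, [(11, 1)]), (12, [(12, 1)]), (14, [(14, 1)]), (15, [(15, 1)]), (16, [(16, 1)]), (20, [(20, 1)]), (23, [(23, 1)]), (24, [(24, 1)]), (25, [(25, 1)]), (27, [(27, 1)]), (30, [(30, 1)]), (31, [(31, 1)])],
  [(0, [(0, 1)]), (4, [(4, 1)]), (5, [(5, 1)]), (7, [(7, 1)]), (8, [(8, 1)]), (9, [(9, 1)]), (13, [(13, 1)]), (17, [(17, 1)]), (18, [(18, 1)]), (19, [(19, 1)]), (21, [(21, 1)]), (22, [(22, 1)]), (26, [(26, 1)]), (28, [(28, 1)]), (29, [(29, 1)]), (32, [(32, 1)])]]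

def parRow : List Bool := [true, true, false, false, false, false, true, true, true, true, true, true, true, true, false, false, false, false, false, false, false, true, true, true, true, true, true, false, false, false, true, false, false]

/-- find the entry with key `j` -/
def look (j : ℕ) : List (ℕ × List (ℕ × ℤ)) → List (ℕ × ℤ)
  | [] => []
  | t :: L => match Nat.beq j t.1 with
    | true => t.2
    | false => look j L

/-- product of basis elements -/
def bm (i j : ℕ) : List (ℕ × ℤ) := look j (tabRows.getD i [])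

/-- parity of basis elements -/
def bpar (i : ℕ) : Bool := parRow.getD i false

/-- `c • (a * e_l)` -/
def mulB (a : List (ℕ × ℤ)) (l : ℕ) (c : ℤ) : List (ℕ × ℤ) :=
  a.flatMap fun t => (bm t.1 l).map fun s => (s.1, c * (t.2 * s.2))

/-- `c • (e_i * a)` -/
def mulB' (i : ℕ) (c : ℤ) (a : List (ℕ × ℤ)) : List (ℕ × ℤ) :=
  a.flatMap fun t => (bm i t.1).map fun s => (s.1, c * (t.2 * s.2))

def insL (i : ℕ) (c : ℤ) : List (ℕ × ℤ) → List (ℕ × ℤ)
  | [] => [(i, c)]
  | t :: L => match Nat.beq i t.1 with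
    | true => (i, c + t.2) :: L
    | false => t :: insL i c L

def colL : List (ℕ × ℤ) → List (ℕ × ℤ)
  | [] => []
  | t :: L => insL t.1 t.2 (colL L)

def zeroL (L : List (ℕ × ℤ)) : Bool := (colL L).all fun t => decide (t.2 = 0)

def law1 (i j l : ℕ) : List (ℕ × ℤ) :=
  mulB (bm i j) l 1 ++ (mulB' i (-1) (bm j l) ++
    (mulB (bm j i) l (sg (bpar i && bpar j)) ++ mulB' j (-sg (bpar i && bpar j)) (bm i l)))

def law2 (i j l : ℕ) : List (ℕ × ℤ) :=
  mulB (bm i j) l 1 ++ (mulB' i (-1) (bm j l) ++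
    (mulB (bm i l) j (sg (bpar j && bpar l)) ++ mulB' i (-sg (bpar j && bpar l)) (bm l j)))

def checkRow (i : ℕ) : Bool :=
  (List.range 33).all fun j => (List.range 33).all fun l =>
    zeroL (law1 i j l) && zeroL (law2 i j l)

def checkPar : Bool :=
  (List.range 33).all fun i => (List.range 33).all fun j =>
    (bm i j).all fun t => decide (bpar t.1 = xor (bpar i) (bpar j))

def checkKeys : Bool := tabRows.all fun r => r.all fun t => decide (t.1 < 33)

set_option maxRecDepth 100000

theorem row0 : checkRow 0 = true := by decide +kernel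
theorem row1 : checkRow 1 = true := by decide +kernel
theorem row2 : checkRow 2 = true := by decide +kernel
theorem row3 : checkRow 3 = true := by decide +kernel
theorem row4 : checkRow 4 = true := by decide +kernel
theorem row5 : checkRow 5 = true := by decide +kernel
theorem row6 : checkRow 6 = true := by decide +kernel
theorem row7 : checkRow 7 = true := by decide +kernel
theorem row8 : checkRow 8 = true := by decide +kernel
theorem row9 : checkRow 9 = true := by decide +kernel
theorem row10 : checkRow 10 = true := by decide +kernel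
theorem row11 : checkRow 11 = true := by decide +kernel
theorem row12 : checkRow 12 = true := by decide +kernel
theorem row13 : checkRow 13 = true := by decide +kernel
theorem row14 : checkRow 14 = true := by decide +kernel
theorem row15 : checkRow 15 = true := by decide +kernel
theorem row16 : checkRow 16 = true := by decide +kernel
theorem row17 : checkRow 17 = true := by decide +kernel
theorem row18 : checkRow 18 = true := by decide +kernel
theorem row19 : checkRow 19 = true := by decide +kernel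
theorem row20 : checkRow 20 = true := by decide +kernel
theorem row21 : checkRow 21 = true := by decide +kernel
theorem row22 : checkRow 22 = true := by decide +kernel
theorem row23 : checkRow 23 = true := by decide +kernel
theorem row24 : checkRow 24 = true := by decide +kernel
theorem row25 : checkRow 25 = true := by decide +kernel
theorem row26 : checkRow 26 = true := by decide +kernel
theorem row27 : checkRow 27 = true := by decide +kernel
theorem row28 : checkRow 28 = true := by decide +kernel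
theorem row29 : checkRow 29 = true := by decide +kernel
theorem row30 : checkRow 30 = true := by decide +kernel
theorem row31 : checkRow 31 = true := by decide +kernel
theorem row32 : checkRow 32 = true := by decide +kernel

theorem check_all (i : ℕ) (hi : i < 33) : checkRow i = true := by
  interval_cases i
  · exact row0
  · exact row1
  · exact row2
  · exact row3
  · exact row4
  · exact row5
  · exact row6
  · exact row7
  · exact row8
  · exact row9
  · exact row10
  · exact row11
  · exact row12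
  · exact row13
  · exact row14
  · exact row15
  · exact row16
  · exact row17
  · exact row18
  · exact row19
  · exact row20
  · exact row21
  · exact row22
  · exact row23
  · exact row24
  · exact row25
  · exact row26
  · exact row27
  · exact row28
  · exact row29
  · exact row30
  · exact row31
  · exact row32

theorem check_par : checkPar = true := by decide +kernel
theorem check_keys : checkKeys = true := by decide +kernel

end MP4b3fad
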