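import Pool.Agent.Lib.MP_4b3fad_al.Refl

/-!
Soundness of the certificate of `Refl.lean`.
-/

namespace MP4b3fad

universe u

open SBase Tr

section
variable {M : Type u} [SBase M] (X Y Z W : M)

/-- the value of a list of monomials `c • m ∘ m'` -/
def evalJ : List (ℤ × Tr × Tr) → M
  | [] => 0
  | t :: L => t.1 • jd t.2.1.par t.2.2.par (ev X Y Z W t.2.1) (ev X Y Z W t.2.2) + evalJ L

/-- the value of a list of monomials `c • m` -/
def evalT : List (ℤ × Tr) → M
  | [] => 0
  | t :: L => t.1 • ev X Y Z W t.2 + evalT L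

theorem evalJ_append (L L' : List (ℤ × Tr × Tr)) :
    evalJ X Y Z W (L ++ L') = evalJ X Y Z W L + evalJ X Y Z W L' := by
  induction L with
  | nil => simp [evalJ]
  | cons t L ih => simp only [List.cons_append, evalJ, ih, add_assoc]

theorem evalJ_ins (c : ℤ) (m m' : Tr) (L : List (ℤ × Tr × Tr)) :
    evalJ X Y Z W (ins c m m' L)
      = c • jd m.par m'.par (ev X Y Z W m) (ev X Y Z W m') + evalJ X Y Z W L := by
  induction L with
  | nil => simp [ins, evalJ]
  | cons t L ih =>
    obtain ⟨d, k, k'⟩ := t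
    unfold ins
    cases h1 : cmp k m with
    | lt => simp only [evalJ, ih]; abel
    | gt => simp only [evalJ, ih]; abel
    | eq =>
      cases h2 : cmp k' m' with
      | lt => simp only [evalJ, ih]; abel
      | gt => simp only [evalJ, ih]; abel
      | eq =>
        rw [eq_of_cmp _ _ h1, eq_of_cmp _ _ h2]
        simp only [evalJ, add_smul]
        abel

theorem jd_comm (p q : Bool) (a b : M) : jd p q a b = sg (p && q) • jd q p b a := by
  cases p <;> cases q <;> simp [jd] <;> abel

theorem jd_self_odd (a : M) : jd true true a a = 0 := by simp [jd]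

theorem evalJ_addJ (c : ℤ) (m m' : Tr) (L : List (ℤ × Tr × Tr)) :
    evalJ X Y Z W (addJ c m m' L)
      = c • jd m.par m'.par (ev X Y Z W m) (ev X Y Z W m') + evalJ X Y Z W L := by
  have e : c • jd m.par m'.par (ev X Y Z W m) (ev X Y Z W m')
      = (c * ((norm m).1 * (norm m').1)) •
        jd (norm m).2.par (norm m').2.par (ev X Y Z W (norm m).2) (ev X Y Z W (norm m').2) := by
    conv_lhs => rw [ev_norm X Y Z W m, ev_norm X Y Z W m']
    rw [jd_zsmul_left, jd_zsmul_right, smul_smul, smul_smul, par_norm, par_norm, mul_assoc]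
  rw [e]
  unfold addJ
  simp only
  split
  · rename_i h0
    rw [h0]; simp
  · cases hc : cmp (norm m).2 (norm m').2 with
    | gt => simp only [evalJ_ins]
    | lt =>
      simp only [evalJ_ins]
      rw [jd_comm (norm m).2.par, smul_smul]
    | eq =>
      simp only
      have e3 := eq_of_cmp _ _ hc
      split
      · rename_i hp
        rw [← e3, hp, jd_self_odd]; simp
      · simp only [evalJ_ins]

theorem evalJ_collect (L : List (ℤ × Tr × Tr)) :
    evalJ X Y Z W (collect L) = evalJ X Y Z W L := by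
  induction L with
  | nil => rfl
  | cons t L ih =>
    obtain ⟨c, m, m'⟩ := t
    simp only [collect, evalJ_addJ, ih, evalJ]

theorem evalJ_allZero (L : List (ℤ × Tr × Tr)) (h : allZero L = true) :
    evalJ X Y Z W L = 0 := by
  induction L with
  | nil => rfl
  | cons t L ih =>
    obtain ⟨c, m, m'⟩ := t
    simp only [allZero, Bool.and_eq_true, decide_eq_true_eq] at h
    simp only [evalJ, ih h.2, h.1, zero_smul, add_zero]

/-- all words of the list have parity `P` -/
def Hom (P : Bool) (L : List (ℤ × Tr)) : Prop := ∀ t ∈ L, t.2.par = P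

theorem evalJ_pairR (c : ℤ) (P : Bool) (L : List (ℤ × Tr)) (m : Tr) (h : Hom P L) :
    evalJ X Y Z W (pairR c L m) = c • jd P m.par (evalT X Y Z W L) (ev X Y Z W m) := by
  induction L with
  | nil => simp [pairR, evalJ, evalT, jd_zero_left]
  | cons t L ih =>
    have h1 : t.2.par = P := h t (by simp)
    have h2 : Hom P L := fun s hs => h s (by simp [hs])
    have e : pairR c (t :: L) m = (c * t.1, t.2, m) :: pairR c L m := rfl
    rw [e]
    simp only [evalJ, evalT, ih h2, h1, jd_add_left, jd_zsmul_left, smul_add, smul_smul]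

theorem evalJ_pairL (c : ℤ) (P : Bool) (L : List (ℤ × Tr)) (m : Tr) (h : Hom P L) :
    evalJ X Y Z W (pairL c m L) = c • jd m.par P (ev X Y Z W m) (evalT X Y Z W L) := by
  induction L with
  | nil => simp [pairL, evalJ, evalT, jd_zero_right]
  | cons t L ih =>
    have h1 : t.2.par = P := h t (by simp)
    have h2 : Hom P L := fun s hs => h s (by simp [hs])
    have e : pairL c m (t :: L) = (c * t.1, m, t.2) :: pairL c m L := rfl
    rw [e]
    simp only [evalJ, evalT, ih h2, h1, jd_add_right, jd_zsmul_right, smul_add, smul_smul]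

theorem hom_jacL (a b' c : Tr) : Hom (xor (xor a.par b'.par) c.par) (jacL a b' c) := by
  intro t ht
  simp only [jacL, List.mem_cons, List.not_mem_nil, or_false] at ht
  rcases ht with rfl | rfl | rfl
  · rfl
  · simp only [par]; cases a.par <;> cases b'.par <;> cases c.par <;> rfl
  · simp only [par]; cases a.par <;> cases b'.par <;> cases c.par <;> rfl

theorem evalT_jacL (a b' c : Tr) : evalT X Y Z W (jacL a b' c)
    = S3 a.par b'.par c.par (ev X Y Z W a) (ev X Y Z W b') (ev X Y Z W c) := by
  simp only [jacL, evalT, S3, ev, par, one_smul, add_zero, add_assoc]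

theorem hom_sagL (a b' c d : Tr) :
    Hom (xor (xor (xor a.par b'.par) c.par) d.par) (sagL a b' c d) := by
  intro t ht
  simp only [sagL, List.mem_cons, List.not_mem_nil, or_false] at ht
  rcases ht with rfl | rfl | rfl | rfl | rfl
  · rfl
  all_goals simp only [par]; cases a.par <;> cases b'.par <;> cases c.par <;> cases d.par <;> rfl

theorem evalT_sagL (a b' c d : Tr) : evalT X Y Z W (sagL a b' c d)
    = Sag a.par b'.par c.par d.par (ev X Y Z W a) (ev X Y Z W b') (ev X Y Z W c)
        (ev X Y Z W d) := by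
  simp only [sagL, evalT, Sag, ev, par, one_smul, add_zero, add_assoc, neg_smul, sub_eq_add_neg]

theorem wrap_ok (P : Bool) (L : List (ℤ × Tr)) (ctx : List Tr) (hP : Hom P L)
    (h0 : (2 : ℤ) • evalT X Y Z W L = 0) :
    (∃ Q, Hom Q (wrap L ctx)) ∧ (2 : ℤ) • evalT X Y Z W (wrap L ctx) = 0 := by
  induction ctx generalizing P L with
  | nil => exact ⟨⟨P, hP⟩, h0⟩
  | cons k ctx ih =>
    have e : wrap L (k :: ctx) = wrap (L.map fun t => (t.1, b t.2 k)) ctx := rfl
    rw [e]
    refine ih (xor P k.par) _ ?_ ?_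
    · intro t ht
      rw [List.mem_map] at ht
      obtain ⟨s, hs, rfl⟩ := ht
      simp only [par, hP s hs]
    · have e2 : ∀ L' : List (ℤ × Tr), Hom P L' →
          evalT X Y Z W (L'.map fun t => (t.1, b t.2 k))
            = cm P k.par (evalT X Y Z W L') (ev X Y Z W k) := by
        intro L'
        induction L' with
        | nil => intro _; simp [evalT, cm_zero_left]
        | cons t L' ih2 =>
          intro hL'
          have h1 : t.2.par = P := hL' t (by simp)
          have h2 : Hom P L' := fun s hs => hL' s (by simp [hs])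
          simp only [List.map_cons, evalT, ev, ih2 h2, h1, cm_add_left, cm_zsmul_left]
      rw [e2 L hP, ← cm_zsmul_left, h0, cm_zero_left]

variable {X Y Z W}

theorem SEnt_ok (h : IsSMal M Z W) (hX : H false X) (hY : H true Y) (e : SEnt) :
    (2 : ℤ) • evalJ X Y Z W e.exp = 0 := by
  have hev := H_ev hX hY h.Hz h.Hw
  have h0 : (2 : ℤ) • evalT X Y Z W (sagL e.a1 e.a2 e.a3 e.a4) = 0 := by
    rw [evalT_sagL]
    exact h.sagle _ _ _ _ _ _ _ _ (hev _) (hev _) (hev _) (hev _)
  obtain ⟨⟨Q, hQ⟩, h1⟩ := wrap_ok X Y Z W _ _ e.ctx (hom_sagL e.a1 e.a2 e.a3 e.a4) h0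
  unfold SEnt.exp
  rw [evalJ_pairR X Y Z W _ Q _ _ hQ, smul_comm, ← jd_zsmul_left, h1, jd_zero_left, smul_zero]

theorem GEnt_ok (h : IsSMal M Z W) (hX : H false X) (hY : H true Y) (e : GEnt) :
    evalJ X Y Z W e.exp = 0 := by
  have hev := H_ev hX hY h.Hz h.Hw
  have h0 := h.G _ _ _ _ _ _ _ _ _ _ (hev e.a1) (hev e.a2) (hev e.b1) (hev e.b2) (hev e.r)
  unfold GEnt.exp gL
  simp only [evalJ_append]
  rw [evalJ_pairL X Y Z W _ _ _ _ (hom_jacL _ _ _), evalJ_pairL X Y Z W _ _ _ _ (hom_jacL _ _ _),
    evalJ_pairL X Y Z W _ _ _ _ (hom_jacL _ _ _), evalJ_pairL X Y Z W _ _ _ _ (hom_jacL _ _ _)]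
  simp only [evalT_jacL]
  rw [mul_smul, mul_smul, mul_smul, ← smul_add, ← smul_add, ← smul_add]
  simp only [par, ev]
  unfold Gd at h0
  rw [h0, smul_zero]

theorem evalJ_flatMap_S (h : IsSMal M Z W) (hX : H false X) (hY : H true Y) (L : List SEnt) :
    (2 : ℤ) • evalJ X Y Z W (L.flatMap SEnt.exp) = 0 := by
  induction L with
  | nil => simp [evalJ]
  | cons e L ih =>
    rw [List.flatMap_cons, evalJ_append, smul_add, SEnt_ok h hX hY, ih, add_zero]

theorem evalJ_flatMap_G (h : IsSMal M Z W) (hX : H false X) (hY : H true Y) (L : List GEnt) :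
    evalJ X Y Z W (L.flatMap GEnt.exp) = 0 := by
  induction L with
  | nil => simp [evalJ]
  | cons e L ih =>
    rw [List.flatMap_cons, evalJ_append, GEnt_ok h hX hY, ih, add_zero]

theorem evalJ_target (h : IsSMal M Z W) (hX : H false X) (hY : H true Y) :
    evalJ X Y Z W targetL = (2 : ℤ) • J3 (evalJ X Y Z W nL) Z W := by
  have hev := H_ev hX hY h.Hz h.Hw
  have J3_add : ∀ x y : M, J3 (x + y) Z W = J3 x Z W + J3 y Z W := by
    intro x y; simp only [J3, lie, add_mul, mul_add, sub_mul, mul_sub]; abel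
  have J3_sm : ∀ (x : M) (n : ℤ), J3 (n • x) Z W = n • J3 x Z W := by
    intro x n
    simp only [J3, lie, smul_mul_assoc, mul_smul_comm, smul_add, smul_sub, sub_mul, mul_sub]
  have J3_0 : J3 (0 : M) Z W = 0 := by simp [J3, lie]
  have eS : ∀ t : Tr, S3 t.par false false (ev X Y Z W t) Z W = J3 (ev X Y Z W t) Z W := by
    intro t
    simp [S3, cm, J3, lie]
  unfold targetL
  generalize nL = L
  induction L with
  | nil => simp [evalJ, J3_0]
  | cons t L ih =>
    have e1 := evalJ_pairL X Y Z W (2 * t.1) _ _ t.2.1 (hom_jacL t.2.2 .z .w)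
    have e2 := evalJ_pairR X Y Z W (2 * t.1) _ _ t.2.2 (hom_jacL t.2.1 .z .w)
    rw [evalT_jacL] at e1 e2
    simp only [par, ev, eS, Bool.xor_false] at e1 e2
    rw [List.flatMap_cons, evalJ_append, evalJ_append, ih, e1, e2]
    simp only [evalJ, J3_add, J3_sm]
    rw [h.der _ _ _ _ (hev _) (hev _), mul_smul, mul_smul, smul_add, smul_add, smul_add]

/-- The main computation. -/
theorem four_J3 (h : IsSMal M Z W) (hX : H false X) (hY : H true Y) :
    (4 : ℤ) • J3 (evalJ X Y Z W nL) Z W = 0 := by
  have e1 := evalJ_allZero X Y Z W _ total_check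
  rw [evalJ_collect] at e1
  unfold total at e1
  rw [evalJ_append, evalJ_append, evalJ_target h hX hY, evalJ_flatMap_G h hX hY, add_zero] at e1
  have e2 := evalJ_flatMap_S h hX hY certS
  have e3 : (2 : ℤ) • ((2 : ℤ) • J3 (evalJ X Y Z W nL) Z W
      + evalJ X Y Z W (certS.flatMap SEnt.exp)) = 0 := by rw [e1, smul_zero]
  rw [smul_add, e2, add_zero, smul_smul] at e3
  exact e3

/-- The element `-4 [[y,y],x]∘[[y,y],y] + 2 [[y,x],y]∘[[y,y],y] + 3 [[y,x],[y,y]]∘[y,y]`. -/
def nn (X Y : M) : M :=
  (-4 : ℤ) • jd false true (cm false false (cm true true Y Y) X) (cm false true (cm true true Y Y) Y)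
    + ((2 : ℤ) • jd false true (cm true true (cm true false Y X) Y)
        (cm false true (cm true true Y Y) Y)
      + (3 : ℤ) • jd true false (cm true false (cm true false Y X) (cm true true Y Y))
        (cm true true Y Y))

theorem nn_eq (X Y Z W : M) : evalJ X Y Z W nL = nn X Y := by
  simp only [nL, evalJ, nn, ev, par, Bool.xor_false, Bool.xor_true, Bool.not_true, Bool.not_false,
    add_zero]

theorem four_J3_nn (h : IsSMal M Z W) (hX : H false X) (hY : H true Y) :
    (4 : ℤ) • J3 (nn X Y) Z W = 0 := by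
  rw [← nn_eq X Y Z W]; exact four_J3 h hX hY

end

end MP4b3fad
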