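import Mathlib

/-!
Super rings and the extension `M ↦ M ⊕ ξ M` by one odd (Grassmann) variable `ξ`.
-/

namespace MP4b3fad

universe u v

/-- The sign of a parity bit. -/
def sg : Bool → ℤ
  | true => -1
  | false => 1

@[simp] theorem sg_true : sg true = -1 := rfl
@[simp] theorem sg_false : sg false = 1 := rfl

/-- The associator. -/
def asr {A : Type u} [NonUnitalNonAssocRing A] (x y z : A) : A := x * y * z - x * (y * z)

/-- A (nonassociative) ring with homogeneous elements `H p` (`p` the parity) and an additive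
map `sig` which is `± 1` on homogeneous elements. -/
class SBase (M : Type u) extends NonUnitalNonAssocRing M where
  sig : M →+ M
  H : Bool → M → Prop
  H_zero : ∀ p, H p 0
  H_add : ∀ p x y, H p x → H p y → H p (x + y)
  H_neg : ∀ p x, H p x → H p (-x)
  H_mul : ∀ p q x y, H p x → H q y → H (xor p q) (x * y)
  sig_H : ∀ p x, H p x → sig x = sg p • x

open SBase

/-- `M ⊕ ξ M`, a pair `(x₁, x₂)` standing for `x₁ + ξ x₂`. -/
def Ext (M : Type u) : Type u := M × M

namespace Ext

section
variable {M : Type u} [SBase M]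

instance : AddCommGroup (Ext M) := inferInstanceAs (AddCommGroup (M × M))

omit [SBase M] in
theorem ext {x y : Ext M} (h1 : x.1 = y.1) (h2 : x.2 = y.2) : x = y := Prod.ext h1 h2

/-- The pair `(a, b)` as an element of `Ext M`. -/
def mk (a b : M) : Ext M := (a, b)
omit [SBase M] in
@[simp] theorem fst_mk (a b : M) : (mk a b).1 = a := rfl
omit [SBase M] in
@[simp] theorem snd_mk (a b : M) : (mk a b).2 = b := rfl

instance : Mul (Ext M) := ⟨fun x y => (x.1 * y.1, x.2 * y.1 + sig x.1 * y.2)⟩

@[simp] theorem fst_add (x y : Ext M) : (x + y).1 = x.1 + y.1 := rfl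
@[simp] theorem snd_add (x y : Ext M) : (x + y).2 = x.2 + y.2 := rfl
@[simp] theorem fst_sub (x y : Ext M) : (x - y).1 = x.1 - y.1 := rfl
@[simp] theorem snd_sub (x y : Ext M) : (x - y).2 = x.2 - y.2 := rfl
@[simp] theorem fst_neg (x : Ext M) : (-x).1 = -x.1 := rfl
@[simp] theorem snd_neg (x : Ext M) : (-x).2 = -x.2 := rfl
@[simp] theorem fst_zero : (0 : Ext M).1 = 0 := rfl
@[simp] theorem snd_zero : (0 : Ext M).2 = 0 := rfl
@[simp] theorem fst_zsmul (n : ℤ) (x : Ext M) : (n • x).1 = n • x.1 := rfl
@[simp] theorem snd_zsmul (n : ℤ) (x : Ext M) : (n • x).2 = n • x.2 := rfl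
@[simp] theorem fst_mul (x y : Ext M) : (x * y).1 = x.1 * y.1 := rfl
@[simp] theorem snd_mul (x y : Ext M) : (x * y).2 = x.2 * y.1 + sig x.1 * y.2 := rfl

instance : NonUnitalNonAssocRing (Ext M) :=
  { (inferInstance : AddCommGroup (Ext M)), (inferInstance : Mul (Ext M)) with
    left_distrib := by
      intro a b c
      apply ext
      · simp only [fst_mul, fst_add, mul_add]
      · simp only [snd_mul, snd_add, fst_add, mul_add]; abel
    right_distrib := by
      intro a b c
      apply ext
      · simp only [fst_mul, fst_add, add_mul]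
      · simp only [snd_mul, snd_add, fst_add, add_mul, map_add]; abel
    zero_mul := by
      intro a
      apply ext
      · simp
      · simp
    mul_zero := by
      intro a
      apply ext
      · simp
      · simp }

instance : SBase (Ext M) :=
  { (inferInstance : NonUnitalNonAssocRing (Ext M)) with
    sig := { toFun := fun x => mk (sig x.1) (- sig x.2)
             map_zero' := by apply ext <;> simp
             map_add' := by
              intro x y
              apply ext
              · simp
              · simp only [snd_mk, snd_add, map_add]; abel }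
    H := fun p x => H p x.1 ∧ H (!p) x.2
    H_zero := fun p => ⟨H_zero p, H_zero _⟩
    H_add := fun p x y hx hy => ⟨H_add _ _ _ hx.1 hy.1, H_add _ _ _ hx.2 hy.2⟩
    H_neg := fun p x hx => ⟨H_neg _ _ hx.1, H_neg _ _ hx.2⟩
    H_mul := by
      intro p q x y hx hy
      refine ⟨H_mul _ _ _ _ hx.1 hy.1, ?_⟩
      change H (!(xor p q)) (x.2 * y.1 + sig x.1 * y.2)
      have e1 := H_mul _ _ _ _ hx.2 hy.1
      have e2 := H_mul _ _ _ _ hx.1 hy.2
      rw [sig_H p _ hx.1]
      refine H_add _ _ _ ?_ ?_
      · rwa [show (!(xor p q)) = xor (!p) q by cases p <;> cases q <;> rfl]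
      · rw [show (!(xor p q)) = xor p (!q) by cases p <;> cases q <;> rfl]
        cases p
        · simpa using e2
        · simpa using H_neg _ _ e2
    sig_H := by
      intro p x hx
      apply ext
      · exact sig_H p _ hx.1
      · change - sig x.2 = sg p • x.2
        rw [sig_H _ _ hx.2]
        cases p <;> simp }

@[simp] theorem fst_sig (x : Ext M) : (sig x).1 = sig x.1 := rfl
@[simp] theorem snd_sig (x : Ext M) : (sig x).2 = - sig x.2 := rfl
theorem H_def (p : Bool) (x : Ext M) : H p x ↔ H p x.1 ∧ H (!p) x.2 := Iff.rfl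

/-- The inclusion `M → M ⊕ ξ M`. -/
def io (x : M) : Ext M := mk x 0
@[simp] theorem fst_io (x : M) : (io x).1 = x := rfl
@[simp] theorem snd_io (x : M) : (io x).2 = 0 := rfl
theorem H_io {p : Bool} {x : M} (h : H p x) : H p (io x) := ⟨h, H_zero _⟩

end

/-- Functoriality. -/
def map {M : Type u} {N : Type v} [SBase M] [SBase N] (f : M →ₙ+* N)
    (hf : ∀ x, f (sig x) = sig (f x)) : Ext M →ₙ+* Ext N where
  toFun x := mk (f x.1) (f x.2)
  map_zero' := by apply ext <;> simp
  map_add' := by intro x y; apply ext <;> simp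
  map_mul' := by
    intro x y
    apply ext
    · simp
    · simp [hf]

section
variable {M : Type u} {N : Type v} [SBase M] [SBase N] (f : M →ₙ+* N)
    (hf : ∀ x, f (sig x) = sig (f x))

@[simp] theorem map_fst (x : Ext M) : (map f hf x).1 = f x.1 := rfl
@[simp] theorem map_snd (x : Ext M) : (map f hf x).2 = f x.2 := rfl
theorem map_sig (x : Ext M) : map f hf (sig x) = sig (map f hf x) := by
  apply ext
  · simp [hf]
  · simp [hf]

theorem map_io (x : M) : map f hf (io x) = io (f x) := by
  apply ext
  · simp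
  · simp
end

end Ext

section laws
variable {M : Type u} [SBase M]

theorem H_sub' {p : Bool} {x y : M} (hx : H p x) (hy : H p y) : H p (x - y) := by
  rw [sub_eq_add_neg]; exact H_add _ _ _ hx (H_neg _ _ hy)

theorem H_sg' {p r : Bool} {x : M} (hx : H p x) : H p (sg r • x) := by
  cases r
  · simpa using hx
  · simpa using H_neg _ _ hx

theorem H_nsmul' {p : Bool} {x : M} (hx : H p x) (n : ℕ) : H p (n • x) := by
  induction n with
  | zero => simpa using H_zero p
  | succ n ih => rw [succ_nsmul]; exact H_add _ _ _ ih hx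

theorem H_zsmul' {p : Bool} {x : M} (hx : H p x) (n : ℤ) : H p (n • x) := by
  cases n with
  | ofNat n => simpa using H_nsmul' hx n
  | negSucc n =>
    rw [negSucc_zsmul]
    exact H_neg _ _ (H_nsmul' hx _)

/-- The laws of an alternative superring. -/
structure IsSAlt (M : Type u) [SBase M] : Prop where
  left : ∀ (p q r : Bool) (x y z : M), H p x → H q y → H r z →
    asr x y z + sg (p && q) • asr y x z = 0
  right : ∀ (p q r : Bool) (x y z : M), H p x → H q y → H r z →
    asr x y z + sg (q && r) • asr x z y = 0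

theorem asr_fst (x y z : Ext M) : (asr x y z).1 = asr x.1 y.1 z.1 := rfl

theorem asr_snd {p q : Bool} (x y z : Ext M) (hx : H p x) (hy : H q y) :
    (asr x y z).2 = asr x.2 y.1 z.1 + sg p • asr x.1 y.2 z.1 + sg (xor p q) • asr x.1 y.1 z.2 := by
  have e1 := sig_H _ _ hx.1
  have e2 := sig_H _ _ hy.1
  have e3 := sig_H _ _ (H_mul _ _ _ _ hx.1 hy.1)
  simp only [asr, Ext.snd_sub, Ext.snd_mul, Ext.fst_mul, e1, e2, e3, mul_add, add_mul]
  cases p <;> cases q <;> simp <;> abel

theorem IsSAlt.ext (h : IsSAlt M) : IsSAlt (Ext M) := by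
  constructor
  · intro p q r x y z hx hy hz
    apply Ext.ext
    · simp only [Ext.fst_add, Ext.fst_zsmul, asr_fst, Ext.fst_zero]
      exact h.left _ _ _ _ _ _ hx.1 hy.1 hz.1
    · simp only [Ext.snd_add, Ext.snd_zsmul, asr_snd _ _ _ hx hy, asr_snd _ _ _ hy hx,
        Ext.snd_zero]
      have h1 := h.left _ _ _ _ _ _ hx.2 hy.1 hz.1
      have h2 := h.left _ _ _ _ _ _ hx.1 hy.2 hz.1
      have h3 := h.left _ _ _ _ _ _ hx.1 hy.1 hz.2
      linear_combination (norm := skip) h1 + sg p • h2 + sg (xor p q) • h3
      cases p <;> cases q <;> simp <;> abel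
  · intro p q r x y z hx hy hz
    apply Ext.ext
    · simp only [Ext.fst_add, Ext.fst_zsmul, asr_fst, Ext.fst_zero]
      exact h.right _ _ _ _ _ _ hx.1 hy.1 hz.1
    · simp only [Ext.snd_add, Ext.snd_zsmul, asr_snd _ _ _ hx hy, asr_snd _ _ _ hx hz,
        Ext.snd_zero]
      have h1 := h.right _ _ _ _ _ _ hx.2 hy.1 hz.1
      have h2 := h.right _ _ _ _ _ _ hx.1 hy.2 hz.1
      have h3 := h.right _ _ _ _ _ _ hx.1 hy.1 hz.2
      linear_combination (norm := skip) h1 + sg p • h2 + sg (xor p q) • h3
      cases p <;> cases q <;> cases r <;> simp <;> abel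

end laws

end MP4b3fad
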